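import Mathlib
import Pool.Agent.Lib.Common.TreeIter.Count

/-!
Countable support iterations of bushy tree forcings, presented in the ground model.
Basic notions.
-/

set_option autoImplicit false
set_option linter.unusedSectionVars false

namespace Pool.Agent.Lib.Common.BushyIter

open Set Function
open Pool.Agent.Lib.Common.TreeIter (W sp co lv co_sp lv_sp sp_co_lv sp_lt_sp sp_le_sp sp_inj
  lt_sp_iff lt_sp_zero exists_level)

/-- Points. -/
abbrev Pt (I : Type) := W I → ℕ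

/-- Assignments of finite sets of allowed values. -/
abbrev Cr (I : Type) := W I → Pt I → Finset ℕ

variable {I : Type} [LinearOrder I]

/-- Dependence on finitely many spots of `T`. -/
def FD {Y : Sort*} (T : Set (W I)) (f : Pt I → Y) : Prop :=
  ∃ D : Set (W I), D.Finite ∧ D ⊆ T ∧ ∀ x y, (∀ s ∈ D, x s = y s) → f x = f y

section
variable {Y Z : Sort*} {T T' : Set (W I)} {f : Pt I → Y} {g : Pt I → Z}

theorem FD.mono (h : FD T f) (hT : T ⊆ T') : FD T' f :=
  let ⟨D, a, b, c⟩ := h; ⟨D, a, b.trans hT, c⟩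

theorem FD.congr (h : FD T f) {x y : Pt I} (hxy : ∀ s ∈ T, x s = y s) : f x = f y :=
  let ⟨_, _, b, c⟩ := h; c x y fun s hs => hxy s (b hs)

theorem FD.const (T : Set (W I)) (c : Y) : FD T fun _ : Pt I => c :=
  ⟨∅, finite_empty, empty_subset _, fun _ _ _ => rfl⟩

theorem FD.spot {s : W I} (hs : s ∈ T) : FD T fun x : Pt I => x s :=
  ⟨{s}, finite_singleton s, singleton_subset_iff.2 hs, fun _ _ h => h s rfl⟩

theorem FD.map (h : FD T f) (φ : Y → Z) : FD T fun x => φ (f x) :=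
  let ⟨D, a, b, c⟩ := h; ⟨D, a, b, fun x y e => congrArg φ (c x y e)⟩

theorem FD.map₂ {U : Sort*} (h : FD T f) (h' : FD T g) (φ : Y → Z → U) :
    FD T fun x => φ (f x) (g x) :=
  let ⟨D, a, b, c⟩ := h
  let ⟨D', a', b', c'⟩ := h'
  ⟨D ∪ D', a.union a', union_subset b b', fun x y e => by
    beta_reduce
    rw [c x y fun s hs => e s (Or.inl hs), c' x y fun s hs => e s (Or.inr hs)]⟩

theorem FD.common {J : Type*} {A : Set J} (hA : A.Finite) {Y : J → Sort*}
    {f : ∀ j, Pt I → Y j} (h : ∀ j ∈ A, FD T (f j)) : ∃ D : Set (W I), D.Finite ∧ D ⊆ T ∧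
      ∀ j ∈ A, ∀ x y, (∀ s ∈ D, x s = y s) → f j x = f j y := by
  choose! D a b c using h
  exact ⟨⋃ j ∈ A, D j, hA.biUnion a, iUnion₂_subset b, fun j hj x y e =>
    c j hj x y fun s hs => e s (mem_biUnion hj hs)⟩

theorem FD.cases {J : Type*} {σ : Pt I → J} (hσ : FD T σ) (hr : (range σ).Finite)
    {f : J → Pt I → Y} (h : ∀ x, FD T (f (σ x))) : FD T fun x => f (σ x) x := by
  obtain ⟨D, a, b, c⟩ := FD.common (T := T) hr (f := f) (by rintro _ ⟨x, rfl⟩; exact h x)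
  obtain ⟨D', a', b', c'⟩ := hσ
  refine ⟨D ∪ D', a.union a', union_subset b b', fun x y e => ?_⟩
  beta_reduce
  rw [← c' x y fun s hs => e s (Or.inr hs)]
  exact c _ ⟨x, rfl⟩ x y fun s hs => e s (Or.inl hs)

theorem FD.update {s : W I} (h : FD (Iic s) f) : FD (Iio s) fun x v => f (update x s v) := by
  classical
  obtain ⟨D, a, b, c⟩ := h
  refine ⟨D \ {s}, a.sdiff, fun t ht => lt_of_le_of_ne (b ht.1) ht.2, fun x y e =>
    funext fun v => c _ _ fun t ht => ?_⟩
  by_cases h : t = s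
  · subst h; simp
  · rw [update_of_ne h, update_of_ne h, e t ⟨ht, h⟩]

end

variable {θ : W I → ℕ}

/-- The trivial condition. -/
def top (θ : W I → ℕ) : Cr I := fun s _ => Finset.range (θ s)

/-- Conditions supported in `T`. -/
structure Cnd (θ : W I → ℕ) (T : Set (W I)) (p : Cr I) : Prop where
  fd : ∀ s, FD (Iio s) (p s)
  ne : ∀ s x, (p s x).Nonempty
  sub : ∀ s x, p s x ⊆ Finset.range (θ s)
  sup : ∀ s ∉ T, p s = top θ s
  cnt : {s | p s ≠ top θ s}.Countable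
  big : ∀ α n, ∃ L, ∀ j ≥ L, ∀ x, n ≤ (p (sp α j) x).card

/-- The body of a condition. -/
def bd (p : Cr I) : Set (Pt I) := {x | ∀ s, x s ∈ p s x}

variable {T T' : Set (W I)} {p q r : Cr I}

theorem Cnd.mono (h : Cnd θ T p) (hT : T ⊆ T') : Cnd θ T' p :=
  ⟨h.fd, h.ne, h.sub, fun s hs => h.sup s fun h' => hs (hT h'), h.cnt, h.big⟩

theorem Cnd.top (h : Cnd θ T p) (T' : Set (W I)) : Cnd θ T' (top θ) :=
  ⟨fun _ => FD.const _ _, fun s x => (h.ne s x).mono (h.sub s x), fun _ _ => subset_rfl,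
    fun _ _ => rfl, by simp, fun α n => let ⟨L, hL⟩ := h.big α n
      ⟨L, fun j hj x => (hL j hj x).trans (Finset.card_le_card (h.sub _ _))⟩⟩

theorem Cnd.lt (h : Cnd θ T p) {x : Pt I} (hx : x ∈ bd p) (s : W I) : x s < θ s :=
  Finset.mem_range.1 (h.sub s x (hx s))

theorem Cnd.causal (h : Cnd θ T p) {s : W I} {x y : Pt I} (e : ∀ t < s, x t = y t) :
    p s x = p s y := (h.fd s).congr e

theorem Cnd.exists_ext [WellFoundedLT I] (h : Cnd θ T p) {S : Set (W I)} (hS : IsLowerSet S)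
    {x : Pt I} (hx : ∀ s ∈ S, x s ∈ p s x) : ∃ y ∈ bd p, ∀ s ∈ S, y s = x s := by
  classical
  let F : ∀ s : W I, (∀ t, t < s → ℕ) → ℕ := fun s ih => if s ∈ S then x s else
    (h.ne s fun t => if ht : t < s then ih t ht else 0).choose
  let y : Pt I := (wellFounded_lt (α := W I)).fix F
  have hy : ∀ s, y s = if s ∈ S then x s else
      (h.ne s fun t => if t < s then y t else 0).choose := fun s => WellFounded.fix_eq _ F s
  have e : ∀ s ∈ S, y s = x s := fun s hs => by rw [hy, if_pos hs]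
  refine ⟨y, fun s => ?_, e⟩
  by_cases hs : s ∈ S
  · rw [e s hs, h.causal (y := x) fun t ht => e t (hS ht.le hs)]
    exact hx s hs
  · rw [h.causal (y := fun t => if t < s then y t else 0) fun t ht => (if_pos ht).symm,
      hy, if_neg hs]
    exact Exists.choose_spec _

theorem Cnd.nonempty [WellFoundedLT I] (h : Cnd θ T p) : (bd p).Nonempty :=
  let ⟨y, a, _⟩ := h.exists_ext isLowerSet_empty (x := fun _ => 0) (by simp); ⟨y, a⟩

theorem Cnd.part [WellFoundedLT I] (hq : Cnd θ T q) (hp : Cnd θ T' p) (h : bd q ⊆ bd p)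
    {S : Set (W I)} (hS : IsLowerSet S) {x : Pt I} (hx : ∀ s ∈ S, x s ∈ q s x) :
    ∀ s ∈ S, x s ∈ p s x := fun s hs => by
  obtain ⟨y, a, b⟩ := hq.exists_ext hS hx
  rw [← b s hs, hp.causal (y := y) fun t ht => (b t (hS ht.le hs)).symm]
  exact h a s

theorem Cnd.sub_of [WellFoundedLT I] (hq : Cnd θ T q) (hp : Cnd θ T' p) (h : bd q ⊆ bd p)
    {s : W I} {x : Pt I} (hx : ∀ t < s, x t ∈ q t x) : q s x ⊆ p s x := fun v hv => by
  classical
  have e : ∀ t < s, update x s v t = x t := fun t ht => update_of_ne ht.ne _ _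
  have := hq.part hp h (isLowerSet_Iic s) (x := update x s v) (fun t ht => by
    rcases (mem_Iic.1 ht).lt_or_eq with ht | rfl
    · rw [e t ht, hq.causal (y := x) fun u hu => e u (hu.trans ht)]
      exact hx t ht
    · rwa [update_self, hq.causal e]) s self_mem_Iic
  rwa [update_self, hp.causal e] at this

/-- Pointwise choice between two conditions gives a condition. -/
theorem Cnd.pick {T₁ T₂ : Set (W I)} (hp : Cnd θ T₁ p) (hq : Cnd θ T₂ q)
    (hf : ∀ s, FD (Iio s) (r s)) (hr : ∀ s x, r s x = p s x ∨ r s x = q s x)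
    (hs : ∀ s ∉ T, r s = BushyIter.top θ s) : Cnd θ T r where
  fd := hf
  ne s x := by rcases hr s x with e | e <;> rw [e]; exacts [hp.ne s x, hq.ne s x]
  sub s x := by rcases hr s x with e | e <;> rw [e]; exacts [hp.sub s x, hq.sub s x]
  sup := hs
  cnt := (hp.cnt.union hq.cnt).mono fun s hs => by
    by_contra hc
    simp only [mem_union, mem_ofPred_eq, not_or, not_not] at hc
    exact hs (funext fun x => by rcases hr s x with e | e <;> rw [e]; exacts [hc.1 ▸ rfl, hc.2 ▸ rfl])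
  big α n := by
    obtain ⟨L, a⟩ := hp.big α n
    obtain ⟨L', b⟩ := hq.big α n
    refine ⟨max L L', fun j hj x => ?_⟩
    rcases hr (sp α j) x with e | e <;> rw [e]
    exacts [a j (le_of_max_le_left hj) x, b j (le_of_max_le_right hj) x]

/-- Below `s₀` use `p`, from `s₀` on use `q`. -/
def glue (s₀ : W I) (p q : Cr I) : Cr I := fun s => if s < s₀ then p s else q s

theorem glue_of_lt {s₀ s : W I} (h : s < s₀) : glue s₀ p q s = p s := if_pos h

theorem glue_of_le {s₀ s : W I} (h : s₀ ≤ s) : glue s₀ p q s = q s := if_neg (not_lt.2 h)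

theorem mem_bd_glue {s₀ : W I} {x : Pt I} :
    x ∈ bd (glue s₀ p q) ↔ (∀ s < s₀, x s ∈ p s x) ∧ ∀ s, s₀ ≤ s → x s ∈ q s x :=
  ⟨fun h => ⟨fun s hs => glue_of_lt (p := p) (q := q) hs ▸ h s,
    fun s hs => glue_of_le (p := p) (q := q) hs ▸ h s⟩, fun h s => by
    rcases lt_or_ge s s₀ with hs | hs
    · rw [glue_of_lt hs]; exact h.1 s hs
    · rw [glue_of_le hs]; exact h.2 s hs⟩

theorem Cnd.glue' {T₁ T₂ : Set (W I)} (hp : Cnd θ T₁ p) (hq : Cnd θ T₂ q) (s₀ : W I)
    (h1 : ∀ s ∈ T₁, s < s₀ → s ∈ T) (h2 : ∀ s ∈ T₂, s₀ ≤ s → s ∈ T) : Cnd θ T (glue s₀ p q) := by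
  refine hp.pick hq (fun s => ?_) (fun s x => ?_) fun s hs => ?_ <;>
    rcases lt_or_ge s s₀ with h | h
  · rw [glue_of_lt h]; exact hp.fd s
  · rw [glue_of_le h]; exact hq.fd s
  · rw [glue_of_lt h]; exact Or.inl rfl
  · rw [glue_of_le h]; exact Or.inr rfl
  · rw [glue_of_lt h]; exact hp.sup s fun h' => hs (h1 s h' h)
  · rw [glue_of_le h]; exact hq.sup s fun h' => hs (h2 s h' h)

theorem Cnd.glue (hp : Cnd θ T p) (hq : Cnd θ T q) (s₀ : W I) : Cnd θ T (glue s₀ p q) :=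
  hp.glue' hq s₀ (fun _ h _ => h) fun _ h _ => h

theorem Cnd.res (hp : Cnd θ T p) (s₀ : W I) : Cnd θ (Iio s₀) (BushyIter.glue s₀ p (BushyIter.top θ)) :=
  hp.glue' (hp.top ∅) s₀ (fun _ _ h => h) fun _ h => h.elim

theorem mem_bd_res (hp : Cnd θ T p) {x : Pt I} (hx : x ∈ bd p) (s₀ : W I) :
    x ∈ bd (glue s₀ p (top θ)) :=
  mem_bd_glue.2 ⟨fun s _ => hx s, fun s _ => hp.sub s x (hx s)⟩

theorem Cnd.mem_bd {s₀ : W I} (hp : Cnd θ (Iio s₀) p) {x : Pt I} (h1 : ∀ s < s₀, x s ∈ p s x)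
    (h2 : ∀ s, x s < θ s) : x ∈ bd p := fun s => by
  rcases lt_or_ge s s₀ with h | h
  · exact h1 s h
  · rw [hp.sup s (not_lt.2 h)]; exact Finset.mem_range.2 (h2 s)

theorem Cnd.mix {J : Type*} {s₀ : W I} {σ : Pt I → J} (hσ : FD (Iio s₀) σ)
    (hr : (range σ).Finite) {u : J → Cr I} (hu : ∀ x, Cnd θ T (u (σ x))) (hp : Cnd θ T p) :
    Cnd θ T (BushyIter.glue s₀ p fun s x => u (σ x) s x) where
  fd s := by
    rcases lt_or_ge s s₀ with h | h
    · rw [glue_of_lt h]; exact hp.fd s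
    · rw [glue_of_le h]
      exact FD.cases (hσ.mono (Iio_subset_Iio h)) hr (f := fun j => u j s) fun x => (hu x).fd s
  ne s x := by
    rcases lt_or_ge s s₀ with h | h
    · rw [glue_of_lt h]; exact hp.ne s x
    · rw [glue_of_le h]; exact (hu x).ne s x
  sub s x := by
    rcases lt_or_ge s s₀ with h | h
    · rw [glue_of_lt h]; exact hp.sub s x
    · rw [glue_of_le h]; exact (hu x).sub s x
  sup s hs := by
    rcases lt_or_ge s s₀ with h | h
    · rw [glue_of_lt h]; exact hp.sup s hs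
    · rw [glue_of_le h]; exact funext fun x => congrFun ((hu x).sup s hs) x
  cnt := by
    refine (hp.cnt.union (hr.countable.biUnion (t := fun j _ => {s | u j s ≠ BushyIter.top θ s})
      (by rintro _ ⟨x, rfl⟩; exact (hu x).cnt))).mono fun s hs => ?_
    rcases lt_or_ge s s₀ with h | h
    · rw [mem_ofPred_eq, glue_of_lt h] at hs; exact Or.inl hs
    · rw [mem_ofPred_eq, glue_of_le h] at hs
      obtain ⟨x, hx⟩ := ne_iff.1 hs
      exact Or.inr (mem_iUnion₂.2 ⟨σ x, ⟨x, rfl⟩, fun e => hx (congrFun e x)⟩)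
  big α n := by
    obtain ⟨L, a⟩ := hp.big α n
    have : ∀ j ∈ range σ, ∃ L, ∀ i ≥ L, ∀ x, n ≤ (u j (sp α i) x).card := by
      rintro _ ⟨x, rfl⟩; exact (hu x).big α n
    choose! L' b using this
    obtain ⟨B, hB⟩ := (hr.image L').bddAbove
    refine ⟨max L B, fun j hj x => ?_⟩
    rcases lt_or_ge (sp α j) s₀ with h | h
    · rw [glue_of_lt h]; exact a j (le_of_max_le_left hj) x
    · rw [glue_of_le h]
      exact b _ ⟨x, rfl⟩ j ((hB ⟨_, ⟨x, rfl⟩, rfl⟩).trans (le_of_max_le_right hj)) x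

theorem Cnd.modify (hp : Cnd θ T p) {D : Set (W I)} (hD : D.Finite) (hT : D ⊆ T)
    (e : ∀ s ∉ D, q s = p s) (h1 : ∀ s ∈ D, FD (Iio s) (q s)) (h2 : ∀ s ∈ D, ∀ x, (q s x).Nonempty)
    (h3 : ∀ s ∈ D, ∀ x, q s x ⊆ Finset.range (θ s)) : Cnd θ T q where
  fd s := by
    by_cases h : s ∈ D
    exacts [h1 s h, e s h ▸ hp.fd s]
  ne s := by
    by_cases h : s ∈ D
    exacts [h2 s h, e s h ▸ hp.ne s]
  sub s := by
    by_cases h : s ∈ D
    exacts [h3 s h, e s h ▸ hp.sub s]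
  sup s hs := (e s fun h => hs (hT h)).trans (hp.sup s hs)
  cnt := (hp.cnt.union hD.countable).mono fun s hs => by
    by_cases h : s ∈ D
    exacts [Or.inr h, Or.inl (by rwa [mem_ofPred_eq, ← e s h])]
  big α n := by
    obtain ⟨L, a⟩ := hp.big α n
    obtain ⟨L', b⟩ := exists_level hD
    exact ⟨max L L', fun j hj x => e _ (b α j (le_of_max_le_right hj)) ▸
      a j (le_of_max_le_left hj) x⟩

open Classical in
/-- Fixing the values on `D`. -/
noncomputable def fixc (D : Set (W I)) (z : Pt I) (p : Cr I) : Cr I :=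
  fun s y => if s ∈ D then {z s} else p s y

theorem fixc_of_notMem {D : Set (W I)} {z : Pt I} {s : W I} (h : s ∉ D) : fixc D z p s = p s :=
  funext fun _ => if_neg h

theorem fixc_of_mem {D : Set (W I)} {z : Pt I} {s : W I} (h : s ∈ D) :
    fixc D z p s = fun _ => {z s} := funext fun _ => if_pos h

theorem Cnd.fixc (hp : Cnd θ T p) {D : Set (W I)} (hD : D.Finite) (hT : D ⊆ T) {z : Pt I}
    (hz : ∀ s ∈ D, z s < θ s) : Cnd θ T (fixc D z p) :=
  hp.modify hD hT (fun _ => fixc_of_notMem) (fun _ h => fixc_of_mem h ▸ FD.const _ _)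
    (fun _ h _ => fixc_of_mem h ▸ Finset.singleton_nonempty _) fun s h _ =>
      fixc_of_mem h ▸ Finset.singleton_subset_iff.2 (Finset.mem_range.2 (hz s h))

theorem mem_bd_fixc {D : Set (W I)} {z y : Pt I} :
    y ∈ bd (fixc D z p) ↔ (∀ s ∈ D, y s = z s) ∧ ∀ s ∉ D, y s ∈ p s y :=
  ⟨fun h => ⟨fun s hs => by simpa [fixc_of_mem hs] using h s,
    fun s hs => fixc_of_notMem (p := p) hs ▸ h s⟩, fun h s => by
    by_cases hs : s ∈ D
    · simp [fixc_of_mem hs, h.1 s hs]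
    · rw [fixc_of_notMem hs]; exact h.2 s hs⟩

/-- The set `D` is closed under the dependences of `p`. -/
def Cl (p : Cr I) (D : Set (W I)) : Prop :=
  ∀ s ∈ D, ∀ x y, (∀ t ∈ D, x t = y t) → p s x = p s y

theorem Cnd.exists_cl [WellFoundedLT I] (hp : Cnd θ T p) {S : Set (W I)} (hS : IsLowerSet S)
    {D : Set (W I)} (hD : D.Finite) (hT : D ⊆ S) :
    ∃ D', D'.Finite ∧ D ⊆ D' ∧ D' ⊆ S ∧ Cl p D' := by
  have key : ∀ {D : Set (W I)} {S : Set (W I)}, IsLowerSet S → D.Finite → D ⊆ S →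
      (∀ s ∈ D, ∃ E : Set (W I), E.Finite ∧ s ∈ E ∧ E ⊆ Iic s ∧ Cl p E) →
      ∃ D', D'.Finite ∧ D ⊆ D' ∧ D' ⊆ S ∧ Cl p D' := by
    intro D S hS hD hT h
    choose! E a b c d using h
    refine ⟨⋃ s ∈ D, E s, hD.biUnion a, fun s hs => mem_biUnion hs (b s hs),
      iUnion₂_subset fun s hs t ht => hS (c s hs ht) (hT hs), fun t ht x y e => ?_⟩
    obtain ⟨s, hs, ht⟩ := mem_iUnion₂.1 ht
    exact d s hs t ht x y fun u hu => e u (mem_biUnion hs hu)
  refine key hS hD hT fun s hs => ?_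
  clear hs
  induction s using (wellFounded_lt (α := W I)).induction with
  | _ s ih =>
    obtain ⟨D, a, b, c⟩ := hp.fd s
    obtain ⟨E, a', b', c', d'⟩ := key (isLowerSet_Iio s) a b fun t ht => ih t (b ht)
    refine ⟨insert s E, a'.insert s, mem_insert _ _,
      insert_subset (le_refl s) (c'.trans Iio_subset_Iic_self), ?_⟩
    rintro t (rfl | ht) x y e
    · exact c x y fun u hu => e u (Or.inr (b' hu))
    · exact d' t ht x y fun u hu => e u (Or.inr hu)

theorem Cl.mem_bd {D : Set (W I)} (h : Cl p D) {z y : Pt I} (hz : ∀ s ∈ D, z s ∈ p s z) :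
    y ∈ bd (fixc D z p) ↔ y ∈ bd p ∧ ∀ s ∈ D, y s = z s := by
  rw [mem_bd_fixc]
  refine ⟨fun ⟨a, b⟩ => ⟨fun s => ?_, a⟩, fun ⟨a, b⟩ => ⟨b, fun s _ => a s⟩⟩
  by_cases hs : s ∈ D
  · rw [h s hs y z a, a s hs]; exact hz s hs
  · exact b s hs

/-- Cylinders inside a condition. -/
theorem Cnd.cyl [WellFoundedLT I] (hp : Cnd θ T p) (hT : IsLowerSet T) {D : Set (W I)}
    (hD : D.Finite) (hDT : D ⊆ T) {z : Pt I} (hz : z ∈ bd p) :
    ∃ q, Cnd θ T q ∧ bd q ⊆ bd p ∧ z ∈ bd q ∧ ∀ y ∈ bd q, ∀ s ∈ D, y s = z s := by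
  obtain ⟨E, a, b, c, d⟩ := hp.exists_cl hT hD hDT
  have h := fun y => d.mem_bd (y := y) fun s _ => hz s
  exact ⟨_, hp.fixc a c fun s _ => hp.lt hz s, fun y hy => ((h y).1 hy).1,
    (h z).2 ⟨hz, fun _ _ => rfl⟩, fun y hy s hs => ((h y).1 hy).2 s (b hs)⟩

/-- Normal form of an extension. -/
theorem Cnd.normal [WellFoundedLT I] (hq : Cnd θ T q) (hp : Cnd θ T p) (h : bd q ⊆ bd p) :
    ∃ r, Cnd θ T r ∧ bd r ⊆ bd q ∧ (∀ s x, r s x ⊆ p s x) ∧
      ∀ s x, r s x = q s x ∨ r s x = p s x := by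
  classical
  let r : Cr I := fun s x => if q s x ⊆ p s x then q s x else p s x
  have hr : ∀ s x, r s x = q s x ∨ r s x = p s x := fun s x => by
    simp only [r]; split_ifs <;> simp
  refine ⟨r, hq.pick hp (fun s => (hq.fd s).map₂ (hp.fd s) fun a b => if a ⊆ b then a else b) hr
    fun s hs => funext fun x => by simp [r, hq.sup s hs, hp.sup s hs], fun x hx s => ?_,
    fun s x => ?_, hr⟩
  · induction s using (wellFounded_lt (α := W I)).induction with
    | _ s ih =>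
      have := hx s
      simp only [r, if_pos (hq.sub_of hp h ih)] at this
      exact this
  · simp only [r]
    split_ifs with h'
    exacts [h', subset_rfl]

end Pool.Agent.Lib.Common.BushyIter
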