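import Mathlib
import Pool.Agent.Lib.Common.BushyIter.Basic

/-!
Counting conditions, reflection below a coordinate, and avoiding a given function.
-/

set_option autoImplicit false
set_option linter.unusedSectionVars false

namespace Pool.Agent.Lib.Common.BushyIter

open Set Function Cardinal
open Pool.Agent.Lib.Common.TreeIter (W sp co lv co_sp lv_sp sp_co_lv sp_lt_sp sp_le_sp sp_inj
  lt_sp_iff lt_sp_zero sp_mono card_le_of_cover card_fun_le card_Iio_sp Long sp_zero_mono)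

variable {I : Type} [LinearOrder I] {θ : W I → ℕ}

theorem card_fd {T : Set (W I)} (hT : #T ≤ 𝔠) {Y : Type} [Countable Y] :
    #{f : Pt I → Y | FD T f} ≤ 𝔠 := by
  classical
  refine card_le_of_cover hT
    (B := fun S => {f | S.Finite ∧ ∀ x y, (∀ s ∈ S, x s = y s) → f x = f y})
    (fun f ⟨D, a, b, c⟩ => ⟨D, b, a.countable, a, c⟩) fun S _ _ => ?_
  by_cases hS : S.Finite
  · have := hS.to_subtype
    refine le_trans (mk_le_of_injective (f := fun f (g : S → ℕ) =>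
      f.1 fun s => if h : s ∈ S then g ⟨s, h⟩ else 0) fun f f' h =>
        Subtype.ext (funext fun x => ?_)) (card_fun_le (mk_le_aleph0.trans aleph0_le_continuum))
    have e : ∀ s ∈ S, x s = if _ : s ∈ S then x s else 0 := fun s hs => by simp [hs]
    rw [f.2.2 x _ e, f'.2.2 x _ e]
    exact congrFun h fun s => x s
  · simp [hS]

theorem card_cnd {T : Set (W I)} (hT : #T ≤ 𝔠) (hl : IsLowerSet T) :
    #{p : Cr I | Cnd θ T p} ≤ 𝔠 := by
  refine card_le_of_cover hT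
    (B := fun S => {p | (∀ s, FD (Iio s) (p s)) ∧ ∀ s ∉ S, p s = top θ s})
    (fun p hp => ⟨{s | p s ≠ top θ s}, fun s hs => ?_, hp.cnt, hp.fd, fun s hs => not_not.1 hs⟩)
    fun S hST hS => ?_
  · by_contra hc
    exact hs (hp.sup s hc)
  · have := hS.to_subtype
    refine le_trans (mk_le_of_injective (f := fun p (s : S) =>
      (⟨p.1 s, (p.2.1 s).mono fun t ht => hl (le_of_lt ht) (hST s.2)⟩ :
        {f : Pt I → Finset ℕ | FD T f}))
      fun p p' h => Subtype.ext (funext fun s => ?_)) (card_fun_le (card_fd hT))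
    by_cases hs : s ∈ S
    · exact congrArg Subtype.val (congrFun h ⟨s, hs⟩)
    · rw [p.2.2 s hs, p'.2.2 s hs]

theorem long_fd (h : Long I) {J : Type} [Countable J] {Y : Sort*} {f : J → Pt I → Y}
    (hf : ∀ j, FD univ (f j)) : ∃ γ, ∀ j, FD (Iio (sp γ 0)) (f j) := by
  choose D a b c using hf
  obtain ⟨γ, hγ⟩ := h.bdd_spots (countable_iUnion fun j => (a j).countable)
  exact ⟨γ, fun j => ⟨D j, a j, (subset_iUnion D j).trans hγ, c j⟩⟩

theorem Cnd.of_supp {T T' : Set (W I)} {p : Cr I} (hp : Cnd θ T p)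
    (h : {s | p s ≠ BushyIter.top θ s} ⊆ T') : Cnd θ T' p :=
  ⟨hp.fd, hp.ne, hp.sub, fun _ hs => not_not.1 fun hc => hs (h hc), hp.cnt, hp.big⟩

theorem long_cnd (h : Long I) {p : Cr I} (hp : Cnd θ univ p) : ∃ γ, Cnd θ (Iio (sp γ 0)) p :=
  let ⟨γ, hγ⟩ := h.bdd_spots hp.cnt; ⟨γ, hp.of_supp hγ⟩

/-- Continuum many dense tasks are all handled below some coordinate. -/
theorem long_reflect [WellFoundedLT I] (h : Long I) {ι : Type} (hι : #ι ≤ 𝔠)
    {𝒟 : ι → I → Cr I → Prop} (hm : ∀ i β γ p, β ≤ γ → 𝒟 i β p → 𝒟 i γ p)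
    (hd : ∀ i p, Cnd θ univ p → ∃ γ w, Cnd θ univ w ∧ bd w ⊆ bd p ∧ 𝒟 i γ w) (γ₀ : I) :
    ∃ α, γ₀ ≤ α ∧ ∀ i q, Cnd θ (Iio (sp α 0)) q →
      ∃ w, Cnd θ (Iio (sp α 0)) w ∧ bd w ⊆ bd q ∧ 𝒟 i α w := by
  have h1 : ∀ i p, Cnd θ univ p → ∃ γ w, Cnd θ (Iio (sp γ 0)) w ∧ bd w ⊆ bd p ∧ 𝒟 i γ w :=
    fun i p hp => by
    obtain ⟨γ, w, a, b, d⟩ := hd i p hp
    obtain ⟨γ', c⟩ := long_cnd h a
    exact ⟨max γ γ', w, c.mono (sp_zero_mono (le_max_right _ _)), b,
      hm _ _ _ _ (le_max_left _ _) d⟩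
  have h2 : ∀ β, ∃ γ, γ₀ ≤ γ ∧ ∀ i p, Cnd θ (Iio (sp β 0)) p →
      ∃ w, Cnd θ (Iio (sp γ 0)) w ∧ bd w ⊆ bd p ∧ 𝒟 i γ w := fun β => by
    choose G hG using fun c : ι × {p : Cr I | Cnd θ (Iio (sp β 0)) p} =>
      h1 c.1 c.2.1 (c.2.2.mono (subset_univ _))
    obtain ⟨γ, hγ⟩ := h.bdd (range G) (mk_range_le.trans (by
      simp only [mk_prod, lift_id]
      exact (mul_le_mul' hι (card_cnd (card_Iio_sp (h.small β)) (isLowerSet_Iio _))).trans_eq
        continuum_mul_self))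
    refine ⟨max γ₀ γ, le_max_left _ _, fun i p hp => ?_⟩
    obtain ⟨w, a, b, c⟩ := hG (i, ⟨p, hp⟩)
    have := (hγ _ ⟨(i, ⟨p, hp⟩), rfl⟩).le.trans (le_max_right γ₀ γ)
    exact ⟨w, a.mono (sp_zero_mono this), b, hm _ _ _ _ this c⟩
  choose g hg0 hg using h2
  obtain ⟨α, hα⟩ := h.closure g
  obtain ⟨β₀, -, hβ₀⟩ := hα ∅ (empty_subset _) countable_empty
  refine ⟨α, (hg0 β₀).trans hβ₀.le, fun i q hq => ?_⟩
  obtain ⟨β, a, b⟩ := hα (co '' {s | q s ≠ top θ s}) (by
    rintro _ ⟨s, hs, rfl⟩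
    by_contra hc
    exact hs (hq.sup s fun h' => hc (lt_sp_zero.1 h'))) (hq.cnt.image _)
  obtain ⟨w, c, d, e⟩ := hg β i q (hq.of_supp fun s hs => lt_sp_zero.2 (a ⟨s, hs, rfl⟩))
  exact ⟨w, c.mono (sp_zero_mono b.le), d, hm _ _ _ _ b.le e⟩

/-- The generic function at a coordinate can be made eventually different from a function that
is read below that coordinate. -/
theorem Cnd.avoid {p : Cr I} (hp : Cnd θ univ p) (α : I) {h : Pt I → ℕ → ℕ}
    (hh : ∀ k, FD (Iio (sp α 0)) fun x => h x k) :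
    ∃ q L, Cnd θ univ q ∧ bd q ⊆ bd p ∧ ∀ x ∈ bd q, ∀ k ≥ L, x (sp α k) ≠ h x k := by
  classical
  obtain ⟨L, hL⟩ := hp.big α 2
  let q : Cr I := fun s x => if co s = α ∧ L ≤ lv s then (p s x).erase (h x (lv s)) else p s x
  have h1 : ∀ s x, q s x ⊆ p s x := fun s x => by
    simp only [q]; split_ifs; exacts [Finset.erase_subset _ _, subset_rfl]
  have h2 : ∀ s x, (p s x).card - 1 ≤ (q s x).card := fun s x => by
    simp only [q]; split_ifs; exacts [Finset.pred_card_le_card_erase, Nat.sub_le _ _]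
  have h3 : ∀ s, co s ≠ α → q s = p s := fun s hs => funext fun x => if_neg fun h => hs h.1
  refine ⟨q, L, ⟨fun s => ?_, fun s x => ?_, fun s x => (h1 s x).trans (hp.sub s x),
    fun s hs => absurd trivial hs, (hp.cnt.union (countable_range (sp α))).mono fun s hs => ?_,
    fun β n => ?_⟩, fun x hx s => h1 s x (hx s), fun x hx k hk => ?_⟩
  · by_cases e : co s = α
    · exact (hp.fd s).map₂ ((hh (lv s)).mono (Iio_subset_Iio (by
        rw [← sp_co_lv s, e]; exact sp_mono α (Nat.zero_le _))))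
        fun a b => if co s = α ∧ L ≤ lv s then a.erase b else a
    · rw [h3 s e]; exact hp.fd s
  · by_cases e : co s = α ∧ L ≤ lv s
    · have := hL _ e.2 x
      rw [← e.1, sp_co_lv] at this
      exact Finset.card_pos.1 (by have := h2 s x; omega)
    · simp only [q, if_neg e]; exact hp.ne s x
  · by_cases e : co s = α
    · exact Or.inr ⟨lv s, by rw [← e, sp_co_lv]⟩
    · exact Or.inl (by rwa [mem_ofPred_eq, ← h3 s e])
  · obtain ⟨L', hL'⟩ := hp.big β (n + 1)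
    exact ⟨L', fun j hj x => by have := hL' j hj x; have := h2 (sp β j) x; omega⟩
  · have := hx (sp α k)
    simp only [q, co_sp, lv_sp, true_and, if_pos (show L ≤ k from hk)] at this
    exact (Finset.mem_erase.1 this).1

/-- Values of a function on a condition are bounded. -/
theorem Cnd.bddAbove {p : Cr I} (hp : Cnd θ univ p) {f : Pt I → ℕ} (hf : FD univ f) :
    ∃ B, ∀ x ∈ bd p, f x ≤ B := by
  classical
  obtain ⟨D, a, -, c⟩ := hf
  have := a.to_subtype
  obtain ⟨B, hB⟩ := (finite_range fun g : ∀ s : D, Fin (θ s) =>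
    f fun s => if h : s ∈ D then g ⟨s, h⟩ else 0).bddAbove
  exact ⟨B, fun x hx => hB ⟨fun s => ⟨x s, hp.lt hx s⟩, c _ _ fun s hs => dif_pos hs⟩⟩

/-- A labelling of the coordinates in which every label occurs cofinally often. -/
theorem exists_labelling {B : Type} (hB : #B ≤ 𝔠) [Nonempty B] :
    ∃ t : (Order.succ continuum.{0}).ord.ToType → B, ∀ b β, ∃ α, β ≤ α ∧ t α = b := by
  have hs : ℵ₀ ≤ Order.succ 𝔠 := aleph0_le_continuum.trans (Order.le_succ _)
  obtain ⟨e⟩ : Nonempty ((Order.succ 𝔠).ord.ToType ≃ B × (Order.succ 𝔠).ord.ToType) := by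
    rw [← Cardinal.eq, mk_prod, lift_id, lift_id, mk_ord_toType,
      mul_eq_right hs (hB.trans (Order.le_succ _)) (mk_ne_zero B)]
  refine ⟨fun α => (e α).1, fun b β => ?_⟩
  by_contra hc
  push Not at hc
  have h1 : #(Order.succ 𝔠).ord.ToType ≤ #(Iio β) :=
    mk_le_of_injective (f := fun γ => ⟨e.symm (b, γ), not_le.1 fun h => hc _ h (by simp)⟩)
      fun γ γ' h => by simpa using h
  rw [mk_ord_toType] at h1
  exact not_lt.2 (h1.trans (TreeIter.long_succ.small β)) (Order.lt_succ _)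

end Pool.Agent.Lib.Common.BushyIter
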