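import Mathlib
import Pool.Agent.Lib.Common.BushyIter.Basic

/-!
Fusion.
-/

set_option autoImplicit false
set_option linter.unusedSectionVars false

namespace Pool.Agent.Lib.Common.BushyIter

open Set Function
open Pool.Agent.Lib.Common.TreeIter (W sp co lv co_sp lv_sp sp_co_lv sp_lt_sp sp_le_sp sp_inj
  lt_sp_iff lt_sp_zero exists_level)

variable {I : Type} [LinearOrder I] {θ : W I → ℕ}

/-- Open families of conditions. -/
def Opn (θ : W I → ℕ) (T : Set (W I)) (𝒟 : Cr I → Prop) : Prop :=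
  ∀ p q, 𝒟 p → Cnd θ T q → bd q ⊆ bd p → 𝒟 q

/-- Dense families of conditions. -/
def Dns (θ : W I → ℕ) (T : Set (W I)) (𝒟 : Cr I → Prop) : Prop :=
  ∀ p, Cnd θ T p → ∃ q, Cnd θ T q ∧ bd q ⊆ bd p ∧ 𝒟 q

/-- An extension that keeps the low levels on `F` and has many values on the high levels. -/
structure Ext (F : Set I) (ℓ : I → ℕ) (n : ℕ) (q p : Cr I) : Prop where
  le : bd q ⊆ bd p
  frz : ∀ α ∈ F, ∀ j < ℓ α, q (sp α j) = p (sp α j)
  nrm : ∀ α ∈ F, ∀ j ≥ ℓ α, ∀ x, n ≤ (q (sp α j) x).card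

theorem Cnd.big_on {T : Set (W I)} {p : Cr I} (hp : Cnd θ T p) {F : Set I} (hF : F.Finite)
    (n : ℕ) : ∃ L, ∀ α ∈ F, ∀ j ≥ L, ∀ x, n ≤ (p (sp α j) x).card := by
  choose L hL using fun α => hp.big α n
  obtain ⟨B, hB⟩ := (hF.image L).bddAbove
  exact ⟨B, fun α hα j hj => hL α j ((hB ⟨α, hα, rfl⟩).trans hj)⟩

theorem exists_limit {T : Set (W I)} {q : ℕ → Cr I} {F : ℕ → Set I} {ℓ : ℕ → I → ℕ}
    {L : ℕ → ℕ} (hq : ∀ k, Cnd θ T (q k)) (hs : ∀ k s x, q (k + 1) s x ⊆ q k s x)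
    (hF : Monotone F) (hL : StrictMono L) (h1 : ∀ k, ∀ α ∈ F k, L k ≤ ℓ k α ∧ ℓ k α ≤ L (k + 1))
    (h2 : ∀ k, Ext (F k) (ℓ k) k (q (k + 1)) (q k))
    (h3 : ∀ k s, q k s ≠ top θ s → ∃ m, co s ∈ F m) :
    ∃ r, Cnd θ T r ∧ ∀ k, bd r ⊆ bd (q k) := by
  have hanti : ∀ k m, k ≤ m → ∀ s x, q m s x ⊆ q k s x := fun k m h s x => by
    induction m, h using Nat.le_induction with
    | base => exact subset_rfl
    | succ m _ ih => exact (hs m s x).trans ih
  have hstab : ∀ α j m, (∀ k ≥ m, α ∈ F k ∧ j < ℓ k α) → ∀ k ≥ m, q k (sp α j) = q m (sp α j) := by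
    intro α j m h k hk
    induction k, hk using Nat.le_induction with
    | base => rfl
    | succ k hk ih => exact ((h2 k).frz α (h k hk).1 j (h k hk).2).trans ih
  have hN : ∀ s, ∃ N, ∀ k ≥ N, q k s = q N s := fun s => by
    by_cases h : ∃ m, co s ∈ F m
    · obtain ⟨m, hm⟩ := h
      refine ⟨max m (lv s + 1), hstab (co s) (lv s) _ fun k hk => ?_⟩
      have a := hF (le_of_max_le_left hk) hm
      exact ⟨a, (le_of_max_le_right hk).trans ((hL.id_le k).trans (h1 k _ a).1)⟩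
    · have : ∀ k, q k s = top θ s := fun k => not_not.1 fun h' => h (h3 k s h')
      exact ⟨0, fun k _ => (this k).trans (this 0).symm⟩
  choose N hN using hN
  have he : ∀ s m, (∀ k ≥ m, q k s = q m s) → q (N s) s = q m s := fun s m h =>
    (hN s _ (le_max_left _ m)).symm.trans (h _ (le_max_right _ _))
  refine ⟨fun s => q (N s) s, ⟨fun s => (hq _).fd s, fun s => (hq _).ne s, fun s => (hq _).sub s,
    fun s hs => (hq _).sup s hs, (countable_iUnion fun k => (hq k).cnt).mono fun s hs =>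
      mem_iUnion.2 ⟨N s, hs⟩, fun α n => ?_⟩, fun k x hx s => ?_⟩
  · by_cases h : ∃ m, α ∈ F m
    · obtain ⟨m, hm⟩ := h
      refine ⟨L (max m n + 1), fun j hj x => ?_⟩
      have hk : α ∈ F (max m n) := hF (le_max_left _ _) hm
      classical
      let P : ℕ → Prop := fun k => max m n ≤ k ∧ ℓ k α ≤ j
      have hP : P (max m n) := ⟨le_rfl, (h1 _ _ hk).2.trans hj⟩
      have hb : ∀ k, P k → k ≤ j := fun k h =>
        (hL.id_le k).trans ((h1 k α (hF h.1 hk)).1.trans h.2)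
      have a := Nat.findGreatest_spec (hb _ hP) hP
      set k := Nat.findGreatest P j
      rw [he _ (k + 1) (hstab α j _ fun i hi => ⟨hF (by have := a.1; omega) hk, ?_⟩)]
      · exact ((le_max_right _ _).trans a.1).trans ((h2 k).nrm α (hF a.1 hk) j a.2 x)
      · by_contra hc
        have b : P i := ⟨by have := a.1; omega, not_lt.1 hc⟩
        have := Nat.le_findGreatest (hb i b) b
        omega
    · obtain ⟨B, hB⟩ := ((hq 0).top T).big α n
      refine ⟨B, fun j hj x => ?_⟩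
      rw [show q (N (sp α j)) (sp α j) = top θ (sp α j) from not_not.1 fun h' => h (h3 _ _ h')]
      exact hB j hj x
  · have := hx s
    beta_reduce at this
    rw [← hN s _ (le_max_left _ k)] at this
    exact hanti k _ (le_max_right _ _) s x this

theorem fusion [WellFoundedLT I] {A : Set I} {R : ℕ → Cr I → Prop}
    (hR : ∀ k, Opn θ (co ⁻¹' A) (R k))
    (step : ∀ k p (F : Set I) L, Cnd θ (co ⁻¹' A) p → F.Finite → F ⊆ A →
      (∀ α ∈ F, ∀ j ≥ L, ∀ x, k ≤ (p (sp α j) x).card) →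
      ∃ q ℓ, Cnd θ (co ⁻¹' A) q ∧ (∀ α, L ≤ ℓ α) ∧ Ext F ℓ k q p ∧ R k q)
    {p : Cr I} (hp : Cnd θ (co ⁻¹' A) p) :
    ∃ q, Cnd θ (co ⁻¹' A) q ∧ bd q ⊆ bd p ∧ ∀ k, R k q := by
  classical
  let S : Cr I → Set I := fun q => co '' {s | q s ≠ top θ s}
  have hg : ∀ q, Cnd θ (co ⁻¹' A) q → ∃ g : I → ℕ, ∀ m, {α ∈ S q | g α ≤ m}.Finite := by
    intro q hq
    obtain ⟨g, hg⟩ := countable_iff_exists_injOn.1 (hq.cnt.image co)
    exact ⟨g, fun m => Finite.of_finite_image ((finite_Iic m).subset (by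
      rintro _ ⟨α, h, rfl⟩; exact h.2)) (hg.mono fun α h => h.1)⟩
  let P : Cr I × (I → ℕ) × ℕ → Prop := fun a =>
    Cnd θ (co ⁻¹' A) a.1 ∧ ∀ m, {α ∈ S a.1 | a.2.1 α ≤ m}.Finite
  have key : ∀ k (a : Subtype P), ∃ b : Subtype P, ∃ ℓ : I → ℕ,
      (∀ s x, b.1.1 s x ⊆ a.1.1 s x) ∧ S a.1.1 ⊆ S b.1.1 ∧ (∀ α ∈ S a.1.1, b.1.2.1 α = a.1.2.1 α) ∧
      a.1.2.2 < b.1.2.2 ∧
      (∀ α ∈ {α ∈ S a.1.1 | a.1.2.1 α ≤ k}, a.1.2.2 ≤ ℓ α ∧ ℓ α ≤ b.1.2.2) ∧
      Ext {α ∈ S a.1.1 | a.1.2.1 α ≤ k} ℓ k b.1.1 a.1.1 ∧ R k b.1.1 := by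
    rintro k ⟨⟨p, g, L⟩, hp, hf⟩
    obtain ⟨L', hL'⟩ := hp.big_on (hf k) k
    obtain ⟨q, ℓ, a, b, c, d⟩ := step k p _ (max L L') hp (hf k) (by
      rintro _ ⟨⟨s, hs, rfl⟩, -⟩
      by_contra hc
      exact hs (hp.sup s hc)) fun α hα j hj => hL' α hα j (le_of_max_le_right hj)
    obtain ⟨r, r1, r2, r3, r4⟩ := a.normal hp c.le
    obtain ⟨g', hg'⟩ := hg r r1
    obtain ⟨B, hB⟩ := ((hf k).image ℓ).bddAbove
    refine ⟨⟨(r, fun α => if α ∈ S p then g α else g' α, max (L + 1) B), r1, fun m =>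
      ((hf m).union (hg' m)).subset fun α hα => ?_⟩, ℓ, r3, image_mono fun s hs e => hs ?_,
      fun α hα => if_pos hα, by simp, fun α hα => ⟨(le_max_left _ _).trans (b α),
        (hB ⟨α, hα, rfl⟩).trans (le_max_right _ _)⟩, ⟨r2.trans c.le, fun α hα j hj =>
        funext fun x => ?_, fun α hα j hj x => ?_⟩, hR k q r d r1 r2⟩
    · by_cases h : α ∈ S p
      · exact Or.inl ⟨h, by simpa [h] using hα.2⟩
      · exact Or.inr ⟨hα.1, by simpa [h] using hα.2⟩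
    · exact funext fun x => (hp.sub s x).antisymm ((congrFun e x).symm.subset.trans (r3 s x))
    · exact (r4 _ x).elim (fun e => e.trans (congrFun (c.frz α hα j hj) x)) id
    · rcases r4 (sp α j) x with e | e
      · exact (c.nrm α hα j hj x).trans_eq (congrArg _ e.symm)
      · exact (hL' α hα j ((le_max_right _ _).trans ((b α).trans hj)) x).trans_eq
          (congrArg _ e.symm)
  choose nx ℓ h1 h2 h3 h4 h5 h6 h7 using key
  obtain ⟨g, hg⟩ := hg p hp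
  let st : ℕ → Subtype P := fun n => Nat.rec ⟨(p, g, 0), hp, hg⟩ nx n
  have hS : ∀ k m, k ≤ m → ∀ α ∈ S (st k).1.1, α ∈ S (st m).1.1 ∧ (st m).1.2.1 α = (st k).1.2.1 α := by
    intro k m h α hα
    induction m, h using Nat.le_induction with
    | base => exact ⟨hα, rfl⟩
    | succ m _ ih => exact ⟨h2 m _ ih.1, (h3 m _ α ih.1).trans ih.2⟩
  obtain ⟨r, a, b⟩ := exists_limit (q := fun k => (st k).1.1)
    (F := fun k => {α ∈ S (st k).1.1 | (st k).1.2.1 α ≤ k}) (ℓ := fun k => ℓ k (st k))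
    (L := fun k => (st k).1.2.2) (fun k => (st k).2.1) (fun k => h1 k _)
    (fun k m h α hα => ⟨(hS k m h α hα.1).1, (hS k m h α hα.1).2.trans_le (hα.2.trans h)⟩)
    (strictMono_nat_of_lt_succ fun k => h4 k _) (fun k => h5 k _) (fun k => h6 k _)
    fun k s hs =>
      have h := hS k (max k ((st k).1.2.1 (co s))) (le_max_left _ _) _ ⟨s, hs, rfl⟩
      ⟨_, h.1, h.2.trans_le (le_max_right _ _)⟩
  exact ⟨r, a, b 0, fun k => hR k _ r (h7 k (st k)) a (b (k + 1))⟩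

end Pool.Agent.Lib.Common.BushyIter
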