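import Mathlib

/-!
A weak form of the Kahn-Kalai-Linial theorem on the discrete cube.
-/

set_option autoImplicit false
set_option linter.unusedSectionVars false

namespace Pool.Agent.Lib.Common.BushyIter

open Finset
open scoped BigOperators

variable {J : Type} [Fintype J] [DecidableEq J]

/-- The sign of a bit. -/
def sg (b : Bool) : ℝ := if b then -1 else 1

/-- Walsh functions. -/
def chi (S : Finset J) (x : J → Bool) : ℝ := ∏ j ∈ S, sg (x j)

/-- Flipping one bit. -/
def fl (j : J) (x : J → Bool) : J → Bool := Function.update x j (!x j)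

/-- Walsh coefficients. -/
noncomputable def wc (f : (J → Bool) → ℝ) (S : Finset J) : ℝ := 𝔼 x, f x * chi S x

theorem sg_mul_self (b : Bool) : sg b * sg b = 1 := by cases b <;> simp [sg]

theorem sg_not (b : Bool) : sg (!b) = -sg b := by cases b <;> simp [sg]

theorem fl_fl (j : J) (x : J → Bool) : fl j (fl j x) = x := by simp [fl]

theorem expect_fl (j : J) (f : (J → Bool) → ℝ) : 𝔼 x, f (fl j x) = 𝔼 x, f x :=
  Fintype.expect_bijective (fl j) (Function.Involutive.bijective (fl_fl j)) _ _ fun _ => rfl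

theorem chi_fl_of_notMem {j : J} {S : Finset J} (h : j ∉ S) (x : J → Bool) :
    chi S (fl j x) = chi S x :=
  prod_congr rfl fun i hi => by rw [fl, Function.update_of_ne (ne_of_mem_of_not_mem hi h)]

theorem chi_insert {j : J} {S : Finset J} (h : j ∉ S) (x : J → Bool) :
    chi (insert j S) x = sg (x j) * chi S x := prod_insert h

theorem chi_fl_of_mem {j : J} {S : Finset J} (h : j ∈ S) (x : J → Bool) :
    chi S (fl j x) = -chi S x := by
  rw [← insert_erase h, chi_insert (notMem_erase j S), chi_insert (notMem_erase j S),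
    chi_fl_of_notMem (notMem_erase j S)]
  simp [fl, sg_not]

theorem sum_chi (x y : J → Bool) :
    ∑ S, chi S x * chi S y = if x = y then (Fintype.card (J → Bool) : ℝ) else 0 := by
  have : ∑ S : Finset J, chi S x * chi S y = ∏ j, (1 + sg (x j) * sg (y j)) := by
    rw [prod_one_add, powerset_univ]
    exact sum_congr rfl fun S _ => by rw [chi, chi, prod_mul_distrib]
  rw [this]
  split_ifs with h
  · subst h
    simp [sg_mul_self, one_add_one_eq_two]
  · obtain ⟨j, hj⟩ := Function.ne_iff.1 h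
    refine prod_eq_zero (mem_univ j) ?_
    cases hx : x j <;> cases hy : y j <;> simp_all [sg]

theorem parseval (f : (J → Bool) → ℝ) : ∑ S, wc f S ^ 2 = 𝔼 x, f x ^ 2 := by
  have h1 : ∀ S, wc f S ^ 2 = 𝔼 x, 𝔼 y, f x * f y * (chi S x * chi S y) := fun S => by
    rw [sq, wc, Fintype.expect_mul_expect]
    exact expect_congr rfl fun x _ => expect_congr rfl fun y _ => by ring
  simp only [h1]
  rw [← expect_sum_comm]
  refine expect_congr rfl fun x _ => ?_
  rw [← expect_sum_comm]
  simp only [← mul_sum, sum_chi, mul_ite, mul_zero]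
  rw [Fintype.expect_ite_eq, ← NNRat.cast_smul_eq_nnqsmul ℝ]
  have : (Fintype.card (J → Bool) : ℝ) ≠ 0 := by positivity
  simp only [smul_eq_mul, NNRat.cast_inv, NNRat.cast_natCast]
  field_simp

theorem bonami (U : Finset J) : ∀ a : Finset J → ℝ,
    𝔼 x, (∑ S ∈ U.powerset, a S * chi S x) ^ 4 ≤ (∑ S ∈ U.powerset, 3 ^ #S * a S ^ 2) ^ 2 := by
  induction U using Finset.induction_on with
  | empty => intro a; simp [chi, ← pow_mul]
  | insert j U hj ih =>
    intro a
    have hS : ∀ S ∈ U.powerset, j ∉ S := fun S h h' => hj (mem_powerset.1 h h')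
    set A : (J → Bool) → ℝ := fun x => ∑ S ∈ U.powerset, a S * chi S x with hA
    set B : (J → Bool) → ℝ := fun x => ∑ S ∈ U.powerset, a (insert j S) * chi S x with hB
    set α := ∑ S ∈ U.powerset, 3 ^ #S * a S ^ 2
    set β := ∑ S ∈ U.powerset, 3 ^ #S * a (insert j S) ^ 2 with hβ
    have h1 : 𝔼 x, A x ^ 4 ≤ α ^ 2 := ih a
    have h2 : 𝔼 x, B x ^ 4 ≤ β ^ 2 := ih fun S => a (insert j S)
    have hα : 0 ≤ α := sum_nonneg fun _ _ => by positivity
    have hβ0 : 0 ≤ β := sum_nonneg fun _ _ => by positivity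
    have hAf : ∀ x, A (fl j x) = A x := fun x =>
      sum_congr rfl fun S h => by rw [chi_fl_of_notMem (hS S h)]
    have hBf : ∀ x, B (fl j x) = B x := fun x =>
      sum_congr rfl fun S h => by rw [chi_fl_of_notMem (hS S h)]
    have e1 : ∀ x, ∑ S ∈ (insert j U).powerset, a S * chi S x = A x + sg (x j) * B x := fun x => by
      rw [sum_powerset_insert hj, hA, hB, mul_sum]
      congr 1
      exact sum_congr rfl fun S h => by rw [chi_insert (hS S h)]; ring
    have e2 : ∑ S ∈ (insert j U).powerset, 3 ^ #S * a S ^ 2 = α + 3 * β := by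
      rw [sum_powerset_insert hj, hβ, mul_sum]
      congr 1
      exact sum_congr rfl fun S h => by rw [card_insert_of_notMem (hS S h)]; ring
    have e3 : 𝔼 x, sg (x j) * (4 * A x ^ 3 * B x + 4 * A x * B x ^ 3) = 0 := by
      have := expect_fl j fun x => sg (x j) * (4 * A x ^ 3 * B x + 4 * A x * B x ^ 3)
      simp only [fl, Function.update_self, sg_not, neg_mul, expect_neg_distrib] at this
      simp only [← fl.eq_1, hAf, hBf] at this
      linarith
    have e4 : ∀ x, (A x + sg (x j) * B x) ^ 4 = (A x ^ 4 + 6 * (A x ^ 2 * B x ^ 2) + B x ^ 4) +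
        sg (x j) * (4 * A x ^ 3 * B x + 4 * A x * B x ^ 3) := fun x => by
      cases x j <;> simp [sg] <;> ring
    have h3 : 𝔼 x, A x ^ 2 * B x ^ 2 ≤ α * β := by
      have := expect_mul_sq_le_sq_mul_sq univ (fun x => A x ^ 2) fun x => B x ^ 2
      simp only [← pow_mul] at this
      refine (abs_le_of_sq_le_sq' (this.trans ?_) (mul_nonneg hα hβ0)).2
      rw [mul_pow]
      exact mul_le_mul h1 h2 (expect_nonneg fun _ _ => Even.pow_nonneg (by decide) _)
        (by positivity)
    simp only [e1, e2, e4, expect_add_distrib, e3, ← mul_expect]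
    nlinarith [sq_nonneg β]

theorem low_weight {g : (J → Bool) → ℝ} (hg : ∀ x, g x ^ 3 = g x) {τ : ℝ}
    (hτ : 𝔼 x, g x ^ 2 ≤ τ) (d : ℕ) :
    ∑ S with #S ≤ d, wc g S ^ 2 ≤ 3 ^ d * (τ * √τ) := by
  set W := ∑ S with #S ≤ d, wc g S ^ 2 with hW
  let a : Finset J → ℝ := fun S => if #S ≤ d then wc g S else 0
  let h : (J → Bool) → ℝ := fun x => ∑ S, a S * chi S x
  have hW0 : 0 ≤ W := sum_nonneg fun _ _ => by positivity
  have hτ0 : 0 ≤ τ := le_trans (expect_nonneg fun _ _ => by positivity) hτ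
  have e1 : W = 𝔼 x, g x * (g x ^ 2 * h x) := by
    have : ∀ x, g x * (g x ^ 2 * h x) = ∑ S, a S * (g x * chi S x) := fun x => by
      rw [← mul_assoc, show g x * g x ^ 2 = g x by rw [← pow_succ', hg], mul_sum]
      exact sum_congr rfl fun S _ => by ring
    simp only [this, expect_sum_comm, ← mul_expect]
    rw [hW, sum_filter]
    refine sum_congr rfl fun S _ => ?_
    simp only [a]
    split_ifs
    · rw [sq]; rfl
    · simp
  have h4 : 𝔼 x, h x ^ 4 ≤ (3 ^ d * W) ^ 2 := by
    have := bonami univ a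
    rw [powerset_univ] at this
    refine this.trans (pow_le_pow_left₀ (sum_nonneg fun _ _ => by positivity) ?_ 2)
    rw [hW, sum_filter, mul_sum]
    refine sum_le_sum fun S _ => ?_
    simp only [a]
    split_ifs with hS
    · exact mul_le_mul_of_nonneg_right (pow_le_pow_right₀ (by norm_num) hS) (sq_nonneg _)
    · simp
  have g4 : ∀ x, (g x ^ 2) ^ 2 = g x ^ 2 := fun x => by
    rw [← pow_mul, show 2 * 2 = 3 + 1 from rfl, pow_succ, hg, sq]
  have h5 : 𝔼 x, g x ^ 2 * h x ^ 2 ≤ √τ * (3 ^ d * W) := by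
    have := expect_mul_sq_le_sq_mul_sq univ (fun x => g x ^ 2) fun x => h x ^ 2
    simp only [g4] at this
    simp only [← pow_mul] at this
    refine (abs_le_of_sq_le_sq' (this.trans ?_) (by positivity)).2
    rw [mul_pow, Real.sq_sqrt hτ0]
    exact mul_le_mul hτ h4 (expect_nonneg fun _ _ => Even.pow_nonneg (by decide) _) hτ0
  have h6 : W ^ 2 ≤ τ * (√τ * (3 ^ d * W)) := by
    have := expect_mul_sq_le_sq_mul_sq univ g fun x => g x ^ 2 * h x
    simp only [mul_pow, g4] at this
    rw [← e1] at this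
    exact this.trans (mul_le_mul hτ h5 (expect_nonneg fun _ _ => by positivity) hτ0)
  rcases hW0.eq_or_lt with h0 | h0
  · rw [← h0]; positivity
  · refine le_of_mul_le_mul_right ?_ h0
    nlinarith

theorem kkl {f : (J → Bool) → ℝ} (hf : ∀ x, f x = 0 ∨ f x = 1) {τ : ℝ}
    (hτ : ∀ j, 𝔼 x, (f x - f (fl j x)) ^ 2 ≤ τ) {d : ℕ} (hd : 0 < d) :
    𝔼 x, f x - (𝔼 x, f x) ^ 2 ≤ Fintype.card J * (τ / d + 3 ^ d * (τ * √τ)) := by
  have hd' : (0 : ℝ) < d := by exact_mod_cast hd
  have hw : ∀ j S, wc (fun x => f x - f (fl j x)) S = if j ∈ S then 2 * wc f S else 0 := by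
    intro j S
    have := expect_fl j fun x => f (fl j x) * chi S x
    simp only [fl_fl] at this
    simp only [wc, sub_mul, expect_sub_distrib, ← this]
    split_ifs with h
    · simp only [chi_fl_of_mem h, mul_neg, expect_neg_distrib]; ring
    · simp only [chi_fl_of_notMem h, sub_self]
  have hle : ∀ j S, (if j ∈ S then wc f S ^ 2 else 0) ≤ wc (fun x => f x - f (fl j x)) S ^ 2 := by
    intro j S
    rw [hw]
    split_ifs
    · nlinarith [sq_nonneg (wc f S)]
    · simp
  have h1 : 𝔼 x, f x - (𝔼 x, f x) ^ 2 = ∑ S ∈ univ.erase ∅, wc f S ^ 2 := by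
    have := parseval f
    rw [← sum_erase_add _ _ (mem_univ ∅)] at this
    have e : 𝔼 x, f x ^ 2 = 𝔼 x, f x := expect_congr rfl fun x _ => by
      rcases hf x with h | h <;> simp [h]
    have e' : wc f ∅ = 𝔼 x, f x := by simp [wc, chi]
    rw [e, e'] at this
    linarith
  have h2 : ∀ S ∈ (univ : Finset (Finset J)).erase ∅, wc f S ^ 2 ≤
      ∑ j, ((if j ∈ S then wc f S ^ 2 else 0) / d +
        if #S ≤ d then (if j ∈ S then wc f S ^ 2 else 0) else 0) := by
    intro S hS
    have hS' : (1 : ℝ) ≤ #S := by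
      exact_mod_cast card_pos.2 (nonempty_iff_ne_empty.2 (ne_of_mem_erase hS))
    have e : ∑ j, (if j ∈ S then wc f S ^ 2 else 0) = #S * wc f S ^ 2 := by simp
    rw [sum_add_distrib, ← sum_div, e]
    split_ifs with h
    · rw [e]
      have : 0 ≤ #S * wc f S ^ 2 / d := by positivity
      nlinarith [sq_nonneg (wc f S)]
    · simp only [sum_const_zero, add_zero]
      rw [le_div_iff₀ hd', mul_comm]
      exact mul_le_mul_of_nonneg_right (by exact_mod_cast (not_le.1 h).le) (sq_nonneg _)
  rw [h1]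
  refine (sum_le_sum h2).trans ((sum_le_sum_of_subset_of_nonneg (erase_subset _ _)
    fun S _ _ => sum_nonneg fun j _ => by positivity).trans ?_)
  rw [sum_comm, ← nsmul_eq_mul, ← card_univ, ← sum_const]
  refine sum_le_sum fun j _ => ?_
  rw [sum_add_distrib, ← sum_div, ← sum_filter (fun S : Finset J => #S ≤ d)]
  refine add_le_add (div_le_div_of_nonneg_right ?_ hd'.le) ?_
  · exact (sum_le_sum fun S _ => hle j S).trans ((parseval _).trans_le (hτ j))
  · refine (sum_le_sum fun S _ => hle j S).trans (low_weight (fun x => ?_) (hτ j) d)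
    rcases hf x with h | h <;> rcases hf (fl j x) with h' | h' <;> simp [h, h']
    norm_num

end Pool.Agent.Lib.Common.BushyIter
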