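import Mathlib
import Pool.Agent.Lib.Common.BushyIter.KKL

/-!
The intersection lemma for families of sets that meet every small quotient.
-/

set_option autoImplicit false
set_option linter.unusedSectionVars false

namespace Pool.Agent.Lib.Common.BushyIter

open Finset
open scoped BigOperators

/-- Every quotient of `Y` to `r` bits has a set of density at most `ε` in the family. -/
def Qp {Y : Type} (r : ℕ) (ε : ℝ) (𝓕 : Set (Set Y)) : Prop :=
  ∀ χ : Y → Fin r → Bool, ∃ A : Finset (Fin r → Bool), (#A : ℝ) ≤ ε * 2 ^ r ∧ χ ⁻¹' A ∈ 𝓕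

section
variable {Y : Type} [Fintype Y] [DecidableEq Y] {r : ℕ}

/-- The bits attached to a point. -/
def om (x : Y × Fin r → Bool) (y : Y) : Fin r → Bool := fun i => x (y, i)

/-- The random set. -/
def Kx (A : Finset (Fin r → Bool)) (x : Y × Fin r → Bool) : Finset Y := {y | om x y ∈ A}

/-- Translating the bits attached to one point. -/
def tr (y : Y) (a : Fin r → Bool) (x : Y × Fin r → Bool) : Y × Fin r → Bool :=
  fun j => if j.1 = y then xor (x j) (a j.2) else x j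

theorem tr_tr (y : Y) (a : Fin r → Bool) (x : Y × Fin r → Bool) : tr y a (tr y a x) = x := by
  funext j
  by_cases h : j.1 = y <;> simp [tr, h]

theorem expect_tr (y : Y) (a : Fin r → Bool) (f : (Y × Fin r → Bool) → ℝ) :
    𝔼 x, f (tr y a x) = 𝔼 x, f x :=
  Fintype.expect_bijective (tr y a) (Function.Involutive.bijective (tr_tr y a)) _ _ fun _ => rfl

theorem om_tr_self (y : Y) (a : Fin r → Bool) (x : Y × Fin r → Bool) :
    om (tr y a x) y = fun i => xor (om x y i) (a i) := by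
  funext i; simp [om, tr]

theorem om_tr_of_ne {y z : Y} (h : z ≠ y) (a : Fin r → Bool) (x : Y × Fin r → Bool) :
    om (tr y a x) z = om x z := by
  funext i; simp [om, tr, h]

theorem om_fl_of_ne {y z : Y} (h : z ≠ y) (i : Fin r) (x : Y × Fin r → Bool) :
    om (fl (y, i) x) z = om x z := by
  funext k; simp [om, fl, Function.update_of_ne (a := (z, k)) (a' := (y, i)) (by simp [h])]

theorem expect_card_Kx (A : Finset (Fin r → Bool)) :
    𝔼 x : Y × Fin r → Bool, (#(Kx A x) : ℝ) = Fintype.card Y * (#A / 2 ^ r) := by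
  have h1 : ∀ x : Y × Fin r → Bool, (#(Kx A x) : ℝ) = ∑ y, if om x y ∈ A then 1 else 0 := by
    intro x; simp [Kx]
  simp only [h1, expect_sum_comm]
  rw [← nsmul_eq_mul, ← card_univ, ← sum_const]
  refine sum_congr rfl fun y _ => ?_
  have h2 : ∀ x : Y × Fin r → Bool,
      ∑ a : Fin r → Bool, (if om (tr y a x) y ∈ A then (1 : ℝ) else 0) = #A := fun x => by
    have hb : Function.Involutive fun (a : Fin r → Bool) i => xor (om x y i) (a i) := fun a => by
      funext i; simp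
    simp only [om_tr_self]
    rw [hb.bijective.sum_comp fun a => if a ∈ A then (1 : ℝ) else 0]
    simp
  have h3 := expect_sum_comm (univ : Finset (Y × Fin r → Bool)) (univ : Finset (Fin r → Bool))
    fun x a => if om (tr y a x) y ∈ A then (1 : ℝ) else 0
  simp only [h2, Fintype.expect_const,
    expect_tr y _ fun x => if om x y ∈ A then (1 : ℝ) else 0] at h3
  rw [h3, eq_div_iff (by positivity)]
  simp [mul_comm]

open Classical in
/-- The indicator of the family enlarged by `D`. -/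
noncomputable def ind (𝓕 : Set (Set Y)) (A : Finset (Fin r → Bool)) (D : Finset Y)
    (x : Y × Fin r → Bool) : ℝ := if ((D ∪ Kx A x : Finset Y) : Set Y) ∈ 𝓕 then 1 else 0

theorem ind_cases (𝓕 : Set (Set Y)) (A : Finset (Fin r → Bool)) (D : Finset Y)
    (x : Y × Fin r → Bool) : ind 𝓕 A D x = 0 ∨ ind 𝓕 A D x = 1 := by
  unfold ind; split_ifs <;> simp

theorem ind_le {𝓕 : Set (Set Y)} (h : IsUpperSet 𝓕) {A : Finset (Fin r → Bool)} {D D' : Finset Y}
    {x x' : Y × Fin r → Bool} (hs : D ∪ Kx A x ⊆ D' ∪ Kx A x') : ind 𝓕 A D x ≤ ind 𝓕 A D' x' := by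
  unfold ind
  split_ifs with h1 h2
  · exact le_rfl
  · exact absurd (h (coe_subset.2 hs) h1) h2
  · exact zero_le_one
  · exact le_rfl

theorem infl_le {𝓕 : Set (Set Y)} (h : IsUpperSet 𝓕) {A : Finset (Fin r → Bool)}
    {a₁ : Fin r → Bool} (ha : a₁ ∉ A) (D : Finset Y) (j : Y × Fin r) :
    𝔼 x, (ind 𝓕 A D x - ind 𝓕 A D (fl j x)) ^ 2 ≤
      2 ^ r * (𝔼 x, ind 𝓕 A (insert j.1 D) x - 𝔼 x, ind 𝓕 A D x) := by
  obtain ⟨y, i⟩ := j
  have h1 : ∀ x, (ind 𝓕 A D x - ind 𝓕 A D (fl (y, i) x)) ^ 2 ≤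
      ∑ a, (ind 𝓕 A (insert y D) (tr y a x) - ind 𝓕 A D (tr y a x)) := fun x => by
    refine le_trans ?_ (single_le_sum (fun a _ => sub_nonneg.2 (ind_le h
      (union_subset_union_left (subset_insert _ _)))) (mem_univ fun i => xor (om x y i) (a₁ i)))
    set z := tr y (fun i => xor (om x y i) (a₁ i)) x with hz
    have hy : om z y = a₁ := by rw [hz, om_tr_self]; funext i; simp
    have key : ∀ x', (∀ w ≠ y, om x' w = om x w) →
        ind 𝓕 A D z ≤ ind 𝓕 A D x' ∧ ind 𝓕 A D x' ≤ ind 𝓕 A (insert y D) z := fun x' hx' => by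
      refine ⟨ind_le h (union_subset_union_right fun w hw => ?_), ind_le h fun w hw => ?_⟩
      · simp only [Kx, mem_filter, mem_univ, true_and] at hw ⊢
        by_cases e : w = y
        · exact absurd (hy ▸ e ▸ hw) ha
        · rwa [hx' w e, ← om_tr_of_ne e]
      · by_cases e : w = y
        · simp [e]
        · simp only [Kx, mem_filter, mem_univ, true_and, mem_union, mem_insert] at hw ⊢
          rw [hz, om_tr_of_ne e, ← hx' w e]
          tauto
    have k1 := key x fun _ _ => rfl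
    have k2 := key (fl (y, i) x) fun w e => om_fl_of_ne e i x
    rcases ind_cases 𝓕 A D x with a | a <;> rcases ind_cases 𝓕 A D (fl (y, i) x) with b | b <;>
      rcases ind_cases 𝓕 A D z with c | c <;> rcases ind_cases 𝓕 A (insert y D) z with d | d <;>
      rw [a, c, d] at k1 <;> rw [b, c, d] at k2 <;> rw [a, b, c, d] <;> nlinarith [k1.1, k1.2, k2.1, k2.2]
  refine (expect_le_expect fun x _ => h1 x).trans_eq ?_
  rw [expect_sum_comm]
  simp only [expect_sub_distrib, expect_tr y _ (ind 𝓕 A _)]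
  simp [mul_sub]

theorem prob_ge {𝓕 : Set (Set Y)} {A : Finset (Fin r → Bool)}
    (hQ : ∀ χ : Y → Fin r → Bool, ∃ B : Finset (Fin r → Bool), #B = #A ∧ χ ⁻¹' B ∈ 𝓕) :
    1 ≤ Fintype.card (Equiv.Perm (Fin r → Bool)) * 𝔼 x, ind 𝓕 A ∅ x := by
  let T : Equiv.Perm (Fin r → Bool) → (Y × Fin r → Bool) → Y × Fin r → Bool :=
    fun π x j => π (om x j.1) j.2
  have hT : ∀ π, Function.Bijective (T π) := fun π =>
    Finite.injective_iff_bijective.1 fun x x' h => funext fun j =>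
      congrFun (π.injective (funext fun i => congrFun h (j.1, i)) : om x j.1 = om x' j.1) j.2
  have h1 : ∀ x, 1 ≤ ∑ π, ind 𝓕 A ∅ (T π x) := fun x => by
    obtain ⟨B, hB, hx⟩ := hQ (om x)
    obtain ⟨π, hπ⟩ := Equiv.Perm.exists_map_finset_eq B A hB
    refine le_trans ?_ (single_le_sum (fun π _ => ?_) (mem_univ π))
    · refine (if_pos ?_).ge
      convert hx using 1
      ext y
      simp only [Kx, empty_union, coe_filter, mem_univ, true_and, Set.mem_ofPred_eq,
        Set.mem_preimage, mem_coe, ← hπ, mem_map_equiv]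
      rw [show om (T π x) y = π (om x y) from rfl, Equiv.symm_apply_apply]
    · rcases ind_cases 𝓕 A ∅ (T π x) with h | h <;> simp [h]
  have h2 := expect_le_expect (s := univ) fun x _ => h1 x
  rw [Fintype.expect_const, expect_sum_comm] at h2
  simp only [Fintype.expect_bijective (T _) (hT _) _ (ind 𝓕 A ∅) fun _ => rfl] at h2
  simpa using h2

end

theorem exists_junta (r : ℕ) {η δ : ℝ} (hη : 0 < η) (hδ : 0 < δ) :
    ∃ M : ℕ, ∀ (Y : Type) [Fintype Y] [DecidableEq Y], M ≤ Fintype.card Y →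
      ∀ (𝓕 : Set (Set Y)) (A : Finset (Fin r → Bool)) (a₁ : Fin r → Bool), a₁ ∉ A →
      IsUpperSet 𝓕 →
      (∀ χ : Y → Fin r → Bool, ∃ B : Finset (Fin r → Bool), #B = #A ∧ χ ⁻¹' B ∈ 𝓕) →
      ∃ D : Finset Y, (#D : ℝ) ≤ δ * Fintype.card Y ∧ 1 - 𝔼 x, ind 𝓕 A D x ≤ η := by
  set γ : ℝ := (Fintype.card (Equiv.Perm (Fin r → Bool)) : ℝ) with hγ
  have hγ0 : 0 < γ := by rw [hγ]; positivity
  set C : ℝ := r * (2 ^ r / δ) + 1 with hC
  have hC0 : 0 < C := by positivity
  obtain ⟨d, hd⟩ := exists_nat_gt (2 * C * γ / η)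
  have hd0 : (0 : ℝ) < d := lt_trans (by positivity) hd
  set u : ℝ := η / (2 * C * γ * 3 ^ d) with hu
  have hu0 : 0 < u := by positivity
  obtain ⟨M, hM⟩ := exists_nat_gt (2 ^ r / (δ * u ^ 2))
  refine ⟨M, fun Y _ _ hY 𝓕 A a₁ ha h hQ => ?_⟩
  set m : ℝ := (Fintype.card Y : ℝ) with hm
  have hMm : 2 ^ r / (δ * u ^ 2) < m := hM.trans_le (by rw [hm]; exact_mod_cast hY)
  have hm0 : 0 < m := lt_trans (by positivity) hMm
  obtain ⟨D, -, hD⟩ := exists_max_image univ
    (fun D : Finset Y => 𝔼 x, ind 𝓕 A D x - #D / (δ * m)) univ_nonempty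
  set P := 𝔼 x, ind 𝓕 A D x with hP
  have h0 := hD ∅ (mem_univ _)
  have h1 := prob_ge hQ
  rw [← hγ] at h1
  have h2 : 0 ≤ 𝔼 x, ind 𝓕 A ∅ x :=
    expect_nonneg fun x _ => by rcases ind_cases 𝓕 A ∅ x with h | h <;> simp [h]
  have h3 : P ≤ 1 :=
    expect_le univ_nonempty fun x _ => by rcases ind_cases 𝓕 A D x with h | h <;> simp [h]
  have h4 : (0 : ℝ) ≤ #D / (δ * m) := by positivity
  simp only [card_empty, Nat.cast_zero, zero_div, sub_zero] at h0
  refine ⟨D, (div_le_one (by positivity)).1 (by linarith), ?_⟩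
  have h5 := kkl (ind_cases 𝓕 A D) (τ := 2 ^ r / (δ * m)) (fun j => (infl_le h ha D j).trans (by
    have a := hD (insert j.1 D) (mem_univ _)
    have b : (#(insert j.1 D) : ℝ) ≤ #D + 1 := by exact_mod_cast card_insert_le _ _
    have c : (#(insert j.1 D) : ℝ) / (δ * m) ≤ #D / (δ * m) + 1 / (δ * m) := by
      rw [← add_div]; gcongr
    rw [div_eq_mul_one_div]
    exact mul_le_mul_of_nonneg_left (by linarith) (by positivity))) (d := d) (by exact_mod_cast hd0)
  rw [← hP, Fintype.card_prod, Fintype.card_fin, Nat.cast_mul, ← hm] at h5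
  have h6 : √(2 ^ r / (δ * m)) ≤ u := by
    refine Real.sqrt_le_iff.2 ⟨hu0.le, ?_⟩
    rw [div_lt_iff₀ (by positivity)] at hMm
    rw [div_le_iff₀ (by positivity)]
    nlinarith
  have h7 : m * r * (2 ^ r / (δ * m) / d + 3 ^ d * (2 ^ r / (δ * m) * √(2 ^ r / (δ * m)))) =
      r * (2 ^ r / δ) * (1 / d + 3 ^ d * √(2 ^ r / (δ * m))) := by
    field_simp
  have h8 : 1 / (d : ℝ) ≤ η / (2 * C * γ) := by
    rw [div_lt_iff₀ hη] at hd
    rw [div_le_div_iff₀ hd0 (by positivity)]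
    linarith
  have h9 : 3 ^ d * u = η / (2 * C * γ) := by rw [hu]; field_simp
  have h10 : P - P ^ 2 ≤ η / γ := by
    refine h5.trans (h7.trans_le ?_)
    calc r * (2 ^ r / δ) * (1 / d + 3 ^ d * √(2 ^ r / (δ * m)))
        ≤ C * (η / (2 * C * γ) + 3 ^ d * u) := by gcongr; linarith
      _ = η / γ := by rw [h9]; field_simp; ring
  rw [le_div_iff₀ hγ0] at h10
  have h11 : 1 ≤ γ * P := h1.trans (mul_le_mul_of_nonneg_left (by linarith) hγ0.le)
  nlinarith

theorem Qp.univ_mem {Y : Type} {r : ℕ} {ε : ℝ} {𝓕 : Set (Set Y)} (h : Qp r ε 𝓕)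
    (hu : IsUpperSet 𝓕) : Set.univ ∈ 𝓕 :=
  let ⟨_, _, b⟩ := h fun _ _ => false; hu (Set.subset_univ _) b

theorem qp_inter (r N : ℕ) {ε δ : ℝ} (hε : 0 ≤ ε) (hδ : 0 < δ) :
    ∃ r' : ℕ, ∀ (Y : Type) (s : Finset ℕ) (𝓕 : ℕ → Set (Set Y)), #s ≤ N →
      (∀ v ∈ s, IsUpperSet (𝓕 v)) → (∀ v ∈ s, Qp r ε (𝓕 v)) →
      Qp r' (ε + δ) {K | ∀ v ∈ s, K ∈ 𝓕 v} := by
  classical
  have hη : 0 < δ / (2 * (N + 1)) := by positivity
  obtain ⟨M, hM⟩ := exists_junta r hη hη
  refine ⟨M, fun Y s 𝓕 hs hu hQ χ => ?_⟩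
  by_cases h1 : 1 ≤ ε + δ
  · refine ⟨univ, ?_, fun v hv => by simpa using (hQ v hv).univ_mem (hu v hv)⟩
    simpa using h1
  have hk : ⌊ε * 2 ^ r⌋₊ < #(univ : Finset (Fin r → Bool)) := by
    rw [Nat.floor_lt (by positivity)]
    simpa using (by linarith : ε < 1)
  obtain ⟨A, -, hA⟩ := exists_subset_card_eq hk.le
  obtain ⟨a₁, -, ha⟩ := exists_mem_notMem_of_card_lt_card (hA.trans_lt hk)
  let 𝓖 : ℕ → Set (Set (Fin M → Bool)) := fun v => {K | χ ⁻¹' K ∈ 𝓕 v}
  have hG : ∀ v ∈ s, IsUpperSet (𝓖 v) := fun v hv K K' h hK => hu v hv (Set.preimage_mono h) hK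
  choose! D hD hD' using fun v (hv : v ∈ s) => hM (Fin M → Bool)
    (by simpa using Nat.lt_two_pow_self.le) (𝓖 v) A a₁ ha (hG v hv) fun χ' => by
      obtain ⟨B, a, b⟩ := hQ v hv (χ' ∘ χ)
      obtain ⟨B', c, d⟩ := exists_superset_card_eq (s := B) (n := #A)
        (hA ▸ Nat.le_floor a) (card_le_univ _)
      exact ⟨B', d, hu v hv (Set.preimage_mono (Set.preimage_mono (coe_subset.2 c))) b⟩
  set m : ℝ := 2 ^ M with hm
  have hm0 : 0 < m := by positivity
  have hc : (Fintype.card (Fin M → Bool) : ℝ) = m := by simp [hm]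
  have hN : (#s : ℝ) * (δ / (2 * (N + 1))) ≤ δ / 2 := by
    have : (#s : ℝ) ≤ N + 1 := by exact_mod_cast hs.trans (Nat.le_succ N)
    calc (#s : ℝ) * (δ / (2 * (N + 1))) ≤ (N + 1) * (δ / (2 * (N + 1))) := by gcongr
      _ = δ / 2 := by field_simp
  have hp : (#A : ℝ) / 2 ^ r ≤ ε := by
    rw [div_le_iff₀ (by positivity), hA]
    exact Nat.floor_le (by positivity)
  obtain ⟨x, -, hx⟩ := exists_le_of_expect_le (s := univ) univ_nonempty
    (f := fun x : (Fin M → Bool) × Fin r → Bool =>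
      (#(Kx A x) : ℝ) / m + ∑ v ∈ s, (1 - ind (𝓖 v) A (D v) x)) (a := ε + δ / 2) (by
      rw [expect_add_distrib, ← expect_div, expect_card_Kx, expect_sum_comm, hc,
        mul_div_cancel_left₀ _ hm0.ne']
      refine add_le_add hp (le_trans ?_ hN)
      rw [← nsmul_eq_mul, ← sum_const]
      refine sum_le_sum fun v hv => ?_
      rw [expect_sub_distrib, Fintype.expect_const]
      exact hD' v hv)
  have h2 : ∀ v ∈ s, 0 ≤ 1 - ind (𝓖 v) A (D v) x := fun v _ => by
    rcases ind_cases (𝓖 v) A (D v) x with h | h <;> simp [h]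
  have h3 := sum_nonneg h2
  have h4 : (0 : ℝ) ≤ #(Kx A x) / m := by positivity
  refine ⟨s.biUnion D ∪ Kx A x, ?_, fun v hv => ?_⟩
  · have a : (#(s.biUnion D) : ℝ) ≤ δ / 2 * m := by
      calc (#(s.biUnion D) : ℝ) ≤ ∑ v ∈ s, (#(D v) : ℝ) := by exact_mod_cast card_biUnion_le
        _ ≤ ∑ v ∈ s, δ / (2 * (N + 1)) * m := sum_le_sum fun v hv => hc ▸ hD v hv
        _ = #s * (δ / (2 * (N + 1))) * m := by rw [sum_const, nsmul_eq_mul, mul_assoc]
        _ ≤ _ := by gcongr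
    have b : (#(Kx A x) : ℝ) ≤ (ε + δ / 2) * m := (div_le_iff₀ hm0).1 (by linarith)
    have c : (#(s.biUnion D ∪ Kx A x) : ℝ) ≤ #(s.biUnion D) + #(Kx A x) := by
      exact_mod_cast card_union_le _ _
    linarith
  · have a := single_le_sum h2 hv
    have b : ind (𝓖 v) A (D v) x ≠ 0 := fun e => by rw [e] at a; linarith
    refine hG v hv (coe_subset.2 (union_subset_union_left (subset_biUnion_of_mem D hv))) ?_
    by_contra c
    exact b (if_neg c)

end Pool.Agent.Lib.Common.BushyIter
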