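import Mathlib
import Pool.Agent.Lib.Common.BushyIter.Fusion

/-!
Local membership in open families and good nodes.
-/

set_option autoImplicit false
set_option linter.unusedSectionVars false

namespace Pool.Agent.Lib.Common.BushyIter

open Set Function
open Pool.Agent.Lib.Common.TreeIter (W sp co lv co_sp lv_sp sp_co_lv sp_lt_sp sp_le_sp sp_inj
  lt_sp_iff lt_sp_zero exists_level sp_mono sp_strictMono Iio_sp_succ lt_sp_succ)

variable {I : Type} [LinearOrder I] [WellFoundedLT I] {θ : W I → ℕ}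

/-- Finitely many values decide membership in the family. -/
def Loc (θ : W I → ℕ) (T : Set (W I)) (p : Cr I) (𝒟 : Cr I → Prop) : Prop :=
  ∃ D : Set (W I), D.Finite ∧ D ⊆ T ∧ ∀ z ∈ bd p, ∀ r, Cnd θ T r → bd r ⊆ bd p →
    (∀ y ∈ bd r, ∀ s ∈ D, y s = z s) → 𝒟 r

variable {T : Set (W I)} {p q r : Cr I} {𝒟 : Cr I → Prop}

theorem Loc.mono (h : Loc θ T p 𝒟) (hq : bd q ⊆ bd p) : Loc θ T q 𝒟 :=
  let ⟨D, a, b, c⟩ := h; ⟨D, a, b, fun z hz r hr e => c z (hq hz) r hr (e.trans hq)⟩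

theorem Loc.of (ho : Opn θ T 𝒟) (h : 𝒟 p) : Loc θ T p 𝒟 :=
  ⟨∅, finite_empty, empty_subset _, fun _ _ r hr e _ => ho p r h hr e⟩

theorem Loc.closed (h : Loc θ T p 𝒟) (hp : Cnd θ T p) (hT : IsLowerSet T) :
    ∃ E : Set (W I), E.Finite ∧ E ⊆ T ∧ Cl p E ∧ ∀ z ∈ bd p, 𝒟 (fixc E z p) := by
  obtain ⟨D, a, b, c⟩ := h
  obtain ⟨E, a', b', c', d'⟩ := hp.exists_cl hT a b
  refine ⟨E, a', c', d', fun z hz => ?_⟩
  have h := fun y => d'.mem_bd (y := y) fun s _ => hz s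
  exact c z hz _ (hp.fixc a' c' fun s _ => hp.lt hz s) (fun y hy => ((h y).1 hy).1)
    fun y hy s hs => ((h y).1 hy).2 s (b' hs)

theorem exists_pattern (θ : W I → ℕ) {E : Set (W I)} (hE : E.Finite) :
    ∃ (J : Type) (_ : Finite J) (σ : Pt I → J), (∀ x y, (∀ s ∈ E, x s = y s) → σ x = σ y) ∧
      ∀ x y, (∀ s ∈ E, x s < θ s) → (∀ s ∈ E, y s < θ s) → σ x = σ y → ∀ s ∈ E, x s = y s := by
  have := hE.to_subtype
  refine ⟨∀ s : E, Fin (θ s + 1), inferInstance,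
    fun x s => ⟨min (x s) (θ s), Nat.lt_succ_of_le (min_le_right _ _)⟩,
    fun x y h => funext fun s => Fin.ext (by simp [h s s.2]), fun x y a b h s hs => ?_⟩
  have := congrArg Fin.val (congrFun h ⟨s, hs⟩)
  simp only [min_eq_left (a s hs).le, min_eq_left (b s hs).le] at this
  exact this

theorem fixc_congr {D : Set (W I)} {z z' : Pt I} (h : ∀ s ∈ D, z s = z' s) (p : Cr I) :
    fixc D z p = fixc D z' p := funext fun s => by
  by_cases hs : s ∈ D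
  · rw [fixc_of_mem hs, fixc_of_mem hs, h s hs]
  · rw [fixc_of_notMem hs, fixc_of_notMem hs]

theorem Dns.finite {J : Type} [Finite J] {𝒟 : J → Cr I → Prop} (ho : ∀ j, Opn θ T (𝒟 j))
    (hd : ∀ j, Dns θ T (𝒟 j)) : Dns θ T fun p => ∀ j, 𝒟 j p := by
  suffices ∀ S : Set J, Dns θ T fun p => ∀ j ∈ S, 𝒟 j p from fun p hp =>
    let ⟨q, a, b, c⟩ := this univ p hp; ⟨q, a, b, fun j => c j trivial⟩
  intro S
  induction S, toFinite S using Set.Finite.induction_on with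
  | empty => exact fun p hp => ⟨p, hp, subset_rfl, by simp⟩
  | @insert j S _ _ ih =>
    intro p hp
    obtain ⟨q, a, b, c⟩ := ih p hp
    obtain ⟨r, a', b', c'⟩ := hd j q a
    refine ⟨r, a', b'.trans b, ?_⟩
    rintro i (rfl | hi)
    exacts [c', ho i q r (c i hi) a' b']

/-- The condition `r` has a tail from the spot `(β, j)` on that is locally in the family. -/
def Gd (θ : W I → ℕ) (T : Set (W I)) (β : I) (p : Cr I) (n : ℕ) (𝒟 : Cr I → Prop) (j : ℕ)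
    (r : Cr I) : Prop :=
  ∃ u, Cnd θ T u ∧ (∀ i ≥ j, ∀ x, n ≤ (u (sp β i) x).card) ∧
    (∀ x ∈ bd (glue (sp β j) r u), ∀ s, sp β j ≤ s → x s ∈ p s x) ∧
    Loc θ T (glue (sp β j) r u) 𝒟

variable {β : I} {n j : ℕ}

theorem Gd.of_part (h : Gd θ T β p n 𝒟 j r)
    (H : ∀ x : Pt I, (∀ s < sp β j, x s ∈ q s x) → ∀ s < sp β j, x s ∈ r s x) :
    Gd θ T β p n 𝒟 j q := by
  obtain ⟨u, a, b, c, d⟩ := h
  have e : bd (glue (sp β j) q u) ⊆ bd (glue (sp β j) r u) := fun x hx =>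
    mem_bd_glue.2 ⟨H x (mem_bd_glue.1 hx).1, (mem_bd_glue.1 hx).2⟩
  exact ⟨u, a, b, fun x hx => c x (e hx), d.mono e⟩

theorem Gd.mono {T₁ T₂ : Set (W I)} (h : Gd θ T β p n 𝒟 j r) (hr : Cnd θ T₁ r) (hq : Cnd θ T₂ q)
    (H : bd q ⊆ bd r) : Gd θ T β p n 𝒟 j q :=
  h.of_part fun _ hx => hq.part hr H (isLowerSet_Iio _) hx

theorem gd_of_loc (hT : Iio (sp β j) ⊆ T) (hr : Cnd θ (Iio (sp β j)) r)
    (h : Loc θ (Iio (sp β j)) r (Gd θ T β p n 𝒟 j)) : Gd θ T β p n 𝒟 j r := by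
  classical
  obtain ⟨E, a, b, c, d⟩ := h.closed hr (isLowerSet_Iio _)
  obtain ⟨J, _, σ, σ1, σ2⟩ := exists_pattern θ a
  obtain ⟨z₀, hz₀⟩ := hr.nonempty
  have hZ : ∀ k : J, ∃ z ∈ bd r, ∀ y ∈ bd r, σ y = k → ∀ s ∈ E, y s = z s := fun k => by
    by_cases hk : ∃ z ∈ bd r, σ z = k
    · obtain ⟨z, hz, rfl⟩ := hk
      exact ⟨z, hz, fun y hy => σ2 y z (fun s _ => hr.lt hy s) fun s _ => hr.lt hz s⟩
    · exact ⟨z₀, hz₀, fun y hy e => absurd ⟨y, hy, e⟩ hk⟩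
  choose Z Z1 Z2 using hZ
  choose u u1 u2 u3 D D1 D2 D3 using fun k => d (Z k) (Z1 k)
  have hu := Cnd.mix (s₀ := sp β j) ⟨E, a, b, σ1⟩ (toFinite _) (fun x => u1 (σ x)) (hr.mono hT)
  have e : glue (sp β j) r (glue (sp β j) r fun s x => u (σ x) s x) =
      glue (sp β j) r fun s x => u (σ x) s x := funext fun s => by
    rcases lt_or_ge s (sp β j) with h | h
    · rw [glue_of_lt h, glue_of_lt h]
    · rw [glue_of_le h]
  have key : ∀ x ∈ bd (glue (sp β j) r fun s x => u (σ x) s x),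
      x ∈ bd (glue (sp β j) (fixc E (Z (σ x)) r) (u (σ x))) := fun x hx => by
    have h1 := hr.mem_bd (mem_bd_glue.1 hx).1 (hu.lt hx)
    exact mem_bd_glue.2 ⟨fun s _ => (c.mem_bd fun s _ => Z1 _ s).2 ⟨h1, Z2 _ x h1 rfl⟩ s,
      (mem_bd_glue.1 hx).2⟩
  refine ⟨_, hu, fun i hi x => ?_, ?_, ?_⟩
  · rw [glue_of_le (sp_mono β hi)]
    exact u2 _ i hi x
  · rw [e]
    exact fun x hx => u3 _ x (key x hx)
  · rw [e]
    refine ⟨E ∪ ⋃ k, D k, a.union (finite_iUnion D1), union_subset (b.trans hT)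
      (iUnion_subset D2), fun z hz w hw h1 h2 => D3 (σ z) z (key z hz) w hw (fun y hy => ?_)
        fun y hy s hs => h2 y hy s (Or.inr (mem_iUnion.2 ⟨_, hs⟩))⟩
    rw [← σ1 y z fun s hs => h2 y hy s (Or.inl hs)]
    exact key y (h1 hy)

/-- The first `j` spots of the coordinate `β`. -/
def Bl (β : I) (j : ℕ) : Set (W I) := sp β '' Iio j

theorem finite_Bl (β : I) (j : ℕ) : (Bl β j).Finite := (finite_Iio j).image _

theorem Bl_subset (β : I) (j : ℕ) : Bl β j ⊆ Iio (sp β j) := by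
  rintro _ ⟨i, hi, rfl⟩; exact sp_strictMono β hi

theorem le_of_mem_Bl {s : W I} (h : s ∈ Bl β j) : sp β 0 ≤ s := by
  obtain ⟨i, -, rfl⟩ := h; exact sp_mono β (Nat.zero_le _)

theorem lt_or_Bl {s : W I} (h : s < sp β j) : s < sp β 0 ∨ s ∈ Bl β j :=
  (lt_sp_iff.1 h).imp lt_sp_zero.2 fun h => ⟨lv s, h.2, by rw [← h.1, sp_co_lv]⟩

theorem Iio_sp_mono (β : I) {i j : ℕ} (h : i ≤ j) : Iio (sp β i) ⊆ Iio (sp β j) :=
  Iio_subset_Iio (sp_mono β h)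

theorem Cnd.node (hr : Cnd θ (Iio (sp β 0)) r) {x : Pt I} (hx : ∀ s ∈ Bl β j, x s < θ s) :
    Cnd θ (Iio (sp β j)) (BushyIter.fixc (Bl β j) x r) :=
  (hr.mono (Iio_sp_mono β (Nat.zero_le _))).fixc (finite_Bl β j) (Bl_subset β j) hx

theorem Cnd.mem_node (hr : Cnd θ (Iio (sp β 0)) r) {x y : Pt I} (hx : ∀ s ∈ Bl β j, x s < θ s) :
    y ∈ bd (BushyIter.fixc (Bl β j) x r) ↔ y ∈ bd r ∧ ∀ s ∈ Bl β j, y s = x s :=
  Cl.mem_bd (fun s hs _ _ _ => by rw [hr.sup s (not_lt.2 (le_of_mem_Bl hs))]; rfl) fun s hs => by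
    rw [hr.sup s (not_lt.2 (le_of_mem_Bl hs))]; exact Finset.mem_range.2 (hx s hs)

/-- Continuous reading. -/
def CR (θ : W I → ℕ) (T : Set (W I)) : Prop :=
  ∀ 𝒟 : ℕ → Cr I → Prop, (∀ k, Opn θ T (𝒟 k)) → (∀ k, Dns θ T (𝒟 k)) →
    ∀ p, Cnd θ T p → ∃ q, Cnd θ T q ∧ bd q ⊆ bd p ∧ ∀ k, Loc θ T q (𝒟 k)

theorem CR.decide (h : CR θ (Iio (sp β 0))) (G : ℕ → Cr I → Prop)
    (hG : ∀ j r q, G j r → Cnd θ (Iio (sp β j)) r → Cnd θ (Iio (sp β j)) q → bd q ⊆ bd r → G j q)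
    (hp : Cnd θ (Iio (sp β 0)) p) : ∃ r, Cnd θ (Iio (sp β 0)) r ∧ bd r ⊆ bd p ∧
      ∃ E : ℕ → Set (W I), ∀ j, (E j).Finite ∧ E j ⊆ Iio (sp β 0) ∧ Cl r (E j) ∧ ∀ x ∈ bd r,
        ¬ G j (fixc (Bl β j) x (fixc (E j) x r)) → ∀ q, Cnd θ (Iio (sp β 0)) q →
          bd q ⊆ bd r → (∀ y ∈ bd q, ∀ s ∈ E j, y s = x s) → ¬ G j (fixc (Bl β j) x q) := by
  let 𝒟 : ℕ → Pt I → Cr I → Prop := fun j x r => Cnd θ (Iio (sp β 0)) r ∧
    (G j (fixc (Bl β j) x r) ∨ ∀ q, Cnd θ (Iio (sp β 0)) q → bd q ⊆ bd r →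
      ¬ G j (fixc (Bl β j) x q))
  have ho : ∀ j x, (∀ s ∈ Bl β j, x s < θ s) → Opn θ (Iio (sp β 0)) (𝒟 j x) := by
    rintro j x hx r q ⟨a, b | b⟩ c d
    · exact ⟨c, Or.inl (hG j _ _ b (a.node hx) (c.node hx) fun y hy =>
        (a.mem_node hx).2 (((c.mem_node hx).1 hy).imp_left fun h => d h))⟩
    · exact ⟨c, Or.inr fun w hw e => b w hw (e.trans d)⟩
  have hd : ∀ j x, Dns θ (Iio (sp β 0)) (𝒟 j x) := fun j x r hr => by
    by_cases hc : ∃ q, Cnd θ (Iio (sp β 0)) q ∧ bd q ⊆ bd r ∧ G j (fixc (Bl β j) x q)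
    · obtain ⟨q, a, b, c⟩ := hc
      exact ⟨q, a, b, a, Or.inl c⟩
    · exact ⟨r, hr, subset_rfl, hr, Or.inr fun q a b c => hc ⟨q, a, b, c⟩⟩
  obtain ⟨r, a, b, c⟩ := h (fun j r => ∀ x, (∀ s ∈ Bl β j, x s < θ s) → 𝒟 j x r)
    (fun j r q h1 h2 h3 x hx => ho j x hx r q (h1 x hx) h2 h3) (fun j r hr => by
      obtain ⟨J, _, σ, -, σ2⟩ := exists_pattern θ (finite_Bl β j)
      obtain ⟨q, a, b, c⟩ := Dns.finite
        (𝒟 := fun k r => ∀ x, (∀ s ∈ Bl β j, x s < θ s) → σ x = k → 𝒟 j x r)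
        (fun k r q h1 h2 h3 x hx e => ho j x hx r q (h1 x hx e) h2 h3) (fun k r hr => by
          by_cases hk : ∃ z, (∀ s ∈ Bl β j, z s < θ s) ∧ σ z = k
          · obtain ⟨z, hz, rfl⟩ := hk
            obtain ⟨q, a, b, c⟩ := hd j z r hr
            refine ⟨q, a, b, fun x hx e => ?_⟩
            simp only [𝒟, fixc_congr (σ2 x z hx hz e)]
            exact c
          · exact ⟨r, hr, subset_rfl, fun x hx e => absurd ⟨x, hx, e⟩ hk⟩) r hr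
      exact ⟨q, a, b, fun x hx => c _ x hx rfl⟩) p hp
  choose E e1 e2 e3 e4 using fun j => (c j).closed a (isLowerSet_Iio _)
  refine ⟨r, a, b, E, fun j => ⟨e1 j, e2 j, e3 j, fun x hx hn q q1 q2 q3 => ?_⟩⟩
  exact ((e4 j x hx x fun s _ => a.lt hx s).2.resolve_left hn) q q1 fun y hy =>
    ((e3 j).mem_bd fun s _ => hx s).2 ⟨q2 hy, q3 y hy⟩

end Pool.Agent.Lib.Common.BushyIter
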