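import Mathlib
import Pool.Agent.Lib.Common.BushyIter.Loc

/-!
Pure decision and continuous reading.
-/

set_option autoImplicit false
set_option linter.unusedSectionVars false

namespace Pool.Agent.Lib.Common.BushyIter

open Set Function
open Pool.Agent.Lib.Common.TreeIter (W sp co lv co_sp lv_sp sp_co_lv sp_lt_sp sp_le_sp sp_inj
  lt_sp_iff lt_sp_zero exists_level sp_mono sp_strictMono Iio_sp_succ lt_sp_succ)

variable {I : Type} [LinearOrder I] [WellFoundedLT I] {θ : W I → ℕ}
variable {T : Set (W I)} {p q r : Cr I} {𝒟 : Cr I → Prop} {β : I} {n j : ℕ}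

theorem gd_step (hT : IsLowerSet T) (hβ : ∀ i, sp β i ∈ T) (hn : 0 < n) (hp : Cnd θ T p)
    (hr : Cnd θ (Iio (sp β 0)) r) {x : Pt I} (hx : ∀ s, x s < θ s) {G : Finset ℕ}
    (hG : G ⊆ p (sp β j) x) (hc : n ≤ G.card)
    (hd : ∀ y ∈ bd r, (∀ s ∈ Bl β j, y s = x s) → p (sp β j) y = p (sp β j) x)
    (h : ∀ v ∈ G, Gd θ T β p n 𝒟 (j + 1) (fixc (Bl β (j + 1)) (update x (sp β j) v) r)) :
    Gd θ T β p n 𝒟 j (fixc (Bl β j) x r) := by
  classical
  have hI : ∀ i, Iio (sp β i) ⊆ T := fun i s hs => hT (le_of_lt hs) (hβ i)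
  have hnode := hr.node (j := j) fun s _ => hx s
  let w : Cr I := update (fixc (Bl β j) x r) (sp β j) fun _ => G
  have hw : Cnd θ (Iio (sp β (j + 1))) w :=
    (hnode.mono (Iio_sp_mono β (Nat.le_succ j))).modify (finite_singleton (sp β j))
      (singleton_subset_iff.2 (sp_strictMono β (Nat.lt_succ_self j)))
      (fun s hs => update_of_ne hs _ _)
      (by rintro _ rfl; simp only [w, update_self]; exact FD.const _ _)
      (by rintro _ rfl _; simp only [w, update_self]; exact Finset.card_pos.1 (hn.trans_le hc))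
      (by rintro _ rfl _; simp only [w, update_self]; exact hG.trans (hp.sub _ _))
  have hw' : ∀ y : Pt I, (∀ s, y s < θ s) → (∀ s < sp β j, y s ∈ w s y) →
      y ∈ bd r ∧ ∀ s ∈ Bl β j, y s = x s := fun y h1 h2 =>
    (hr.mem_node fun s _ => hx s).1 (hnode.mem_bd (fun s hs => by
      have := h2 s hs
      rwa [show w s = _ from update_of_ne hs.ne _ _] at this) h1)
  obtain ⟨u, u1, u2, u3, u4⟩ : Gd θ T β p n 𝒟 (j + 1) w := by
    refine gd_of_loc (hI _) hw ⟨{sp β j}, finite_singleton _,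
      singleton_subset_iff.2 (sp_strictMono β (Nat.lt_succ_self j)), fun z hz q q1 q2 q3 => ?_⟩
    have hv : z (sp β j) ∈ G := by simpa [w] using hz (sp β j)
    have hb : ∀ s ∈ Bl β (j + 1), update x (sp β j) (z (sp β j)) s < θ s := fun s _ => by
      by_cases e : s = sp β j
      · subst e; rw [update_self]; exact hw.lt hz _
      · rw [update_of_ne e]; exact hx s
    refine (h _ hv).mono (hr.node hb) q1 fun y hy => ?_
    have := hw' y (q1.lt hy) fun s _ => q2 hy s
    refine (hr.mem_node hb).2 ⟨this.1, ?_⟩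
    rintro _ ⟨i, hi, rfl⟩
    rcases (Nat.lt_succ_iff.1 hi).lt_or_eq with hi | rfl
    · rw [update_of_ne (sp_strictMono β hi).ne]
      exact this.2 _ ⟨i, hi, rfl⟩
    · rw [update_self]
      exact q3 y hy _ rfl
  have hu := (hw.mono (hI _)).glue u1 (sp β (j + 1))
  have e : glue (sp β j) (fixc (Bl β j) x r) (glue (sp β (j + 1)) w u) =
      glue (sp β (j + 1)) w u := funext fun s => by
    rcases lt_or_ge s (sp β j) with h | h
    · rw [glue_of_lt h, glue_of_lt (h.trans (sp_strictMono β (Nat.lt_succ_self j)))]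
      exact (update_of_ne h.ne _ _).symm
    · rw [glue_of_le h]
  refine ⟨_, hu, fun i hi y => ?_, ?_, e.symm ▸ u4⟩
  · rcases hi.lt_or_eq with hi | rfl
    · rw [glue_of_le (sp_mono β hi)]
      exact u2 i hi y
    · rw [glue_of_lt (sp_strictMono β (Nat.lt_succ_self j))]
      simpa [w] using hc
  · rw [e]
    intro y hy s hs
    rcases lt_or_ge s (sp β (j + 1)) with h | h
    · obtain rfl : s = sp β j := le_antisymm (lt_sp_succ.1 h) hs
      have h1 := (mem_bd_glue.1 hy).1
      have h2 := hw' y (hu.lt hy) fun s hs => h1 s (hs.trans h)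
      rw [hd y h2.1 h2.2]
      exact hG (by simpa [w] using h1 _ h)
    · exact u3 y hy s h

theorem exists_gd (h : CR θ (Iio (sp β 0))) (hT : IsLowerSet T) (hβ : ∀ i, sp β i ∈ T)
    (hn : 0 < n) (ho : Opn θ T 𝒟) (hd : Dns θ T 𝒟) (hp : Cnd θ T p) {L : ℕ}
    (hL : ∀ j ≥ L, ∀ x, n ≤ (p (sp β j) x).card) :
    Dns θ (Iio (sp β 0)) fun r => Gd θ T β p n 𝒟 L (glue (sp β 0) r p) := by
  classical
  intro r₀ hr₀
  have hI : ∀ i, Iio (sp β i) ⊆ T := fun i s hs => hT (le_of_lt hs) (hβ i)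
  obtain ⟨r, hr, r1, E, hE⟩ := h.decide (Gd θ T β p n 𝒟)
    (fun j r q a b c d => a.mono b c d) hr₀
  refine ⟨r, hr, r1, ?_⟩
  let gd : ℕ → Pt I → Prop := fun j x => Gd θ T β p n 𝒟 j (fixc (Bl β j) x (fixc (E j) x r))
  have gd_congr : ∀ j x y, (∀ s ∈ E j ∪ Bl β j, x s = y s) → gd j x = gd j y := fun j x y e => by
    simp only [gd]
    rw [fixc_congr fun s hs => e s (Or.inr hs), fixc_congr fun s hs => e s (Or.inl hs)]
  have hEB : ∀ j, E j ∪ Bl β j ⊆ Iio (sp β j) := fun j =>
    union_subset ((hE j).2.1.trans (Iio_sp_mono β (Nat.zero_le _))) (Bl_subset β j)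
  have gd_fd : ∀ j, FD (Iio (sp β j)) (gd j) := fun j =>
    ⟨_, (hE j).1.union (finite_Bl β j), hEB j, gd_congr j⟩
  have hfix : ∀ j, ∀ x ∈ bd r, Cnd θ (Iio (sp β 0)) (fixc (E j) x r) := fun j x hx =>
    hr.fixc (hE j).1 (hE j).2.1 fun s _ => hr.lt hx s
  have hmem : ∀ j, ∀ x ∈ bd r, ∀ y, y ∈ bd (fixc (E j) x r) ↔ y ∈ bd r ∧ ∀ s ∈ E j, y s = x s :=
    fun j x hx y => (hE j).2.2.1.mem_bd fun s _ => hx s
  -- the step lemma
  have step : ∀ j, ∀ x ∈ bd r, ¬ gd j x →
      ((p (sp β j) x).filter fun v => gd (j + 1) (update x (sp β j) v)).card < n := by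
    intro j x hx hg
    by_contra hc
    obtain ⟨D, d1, d2, d3⟩ := hp.fd (sp β j)
    obtain ⟨q, q1, q2, -, q3⟩ := hr.cyl (isLowerSet_Iio _) (D := E j ∪ E (j + 1) ∪ D ∩ Iio (sp β 0))
      (((hE j).1.union (hE _).1).union (d1.inter_of_left _))
      (union_subset (union_subset (hE j).2.1 (hE _).2.1) inter_subset_right) hx
    refine (hE j).2.2.2 x hx hg q q1 q2 (fun y hy s hs => q3 y hy s (Or.inl (Or.inl hs)))
      (gd_step hT hβ hn hp q1 (hr.lt hx) (Finset.filter_subset _ _) (not_lt.1 hc)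
        (fun y hy e => d3 _ _ fun s hs => ?_) fun v hv => ?_)
    · exact (lt_or_Bl (d2 hs)).elim (fun h => q3 y hy s (Or.inr ⟨hs, h⟩)) (e s)
    · obtain ⟨v1, v2⟩ := Finset.mem_filter.1 hv
      have hb : ∀ s ∈ Bl β (j + 1), update x (sp β j) v s < θ s := fun s _ => by
        by_cases e : s = sp β j
        · subst e; rw [update_self]; exact Finset.mem_range.1 (hp.sub _ _ v1)
        · rw [update_of_ne e]; exact hr.lt hx s
      have e : fixc (E (j + 1)) (update x (sp β j) v) r = fixc (E (j + 1)) x r :=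
        fixc_congr (fun s hs => update_of_ne
          (((hE _).2.1 hs).trans_le (sp_mono β (Nat.zero_le _))).ne _ _) r
      simp only [gd, e] at v2
      refine v2.mono ((hfix _ x hx).node hb) (q1.node hb) fun y hy => ?_
      obtain ⟨a, b⟩ := (q1.mem_node hb).1 hy
      exact ((hfix _ x hx).mem_node hb).2 ⟨(hmem _ x hx y).2
        ⟨q2 a, fun s hs => q3 y a s (Or.inl (Or.inr hs))⟩, b⟩
  -- every node is good
  have all : ∀ x ∈ bd r, gd L x := by
    intro x₀ hx₀
    by_contra hg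
    let B : W I → Pt I → Finset ℕ := fun s x =>
      (p s x).filter fun v => ¬ gd (lv s + 1) (update x s v)
    let u : Cr I := fun s x =>
      if co s = β ∧ L ≤ lv s ∧ (p s x).card < (B s x).card + n then B s x else p s x
    have hup : ∀ s x, u s x ⊆ p s x := fun s x => by
      simp only [u]; split_ifs; exacts [Finset.filter_subset _ _, subset_rfl]
    have huc : ∀ s x, (p s x).card < (u s x).card + n := fun s x => by
      simp only [u]; split_ifs with h; exacts [h.2.2, by omega]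
    have hue : ∀ s, co s ≠ β → u s = p s := fun s hs => funext fun x => if_neg fun h => hs h.1
    have hu : Cnd θ T u := by
      refine ⟨fun s => ?_, fun s x => ?_, fun s x => (hup s x).trans (hp.sub s x),
        fun s hs => (hue s fun e => hs (by rw [← sp_co_lv s, e]; exact hβ _)).trans (hp.sup s hs),
        (hp.cnt.union (countable_range (sp β))).mono fun s hs => ?_, fun α m => ?_⟩
      · by_cases e : co s = β
        · have h1 : FD (Iic s) (gd (lv s + 1)) := (gd_fd _).mono (by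
            rw [Iio_sp_succ, ← e, sp_co_lv])
          exact (hp.fd s).map₂ h1.update fun a b =>
            if co s = β ∧ L ≤ lv s ∧ a.card < (a.filter fun v => ¬ b v).card + n then
              a.filter fun v => ¬ b v else a
        · rw [hue s e]; exact hp.fd s
      · simp only [u]
        split_ifs with h
        · have := hL _ h.2.1 x
          rw [← h.1, sp_co_lv] at this
          exact Finset.card_pos.1 (by omega)
        · exact hp.ne s x
      · by_cases e : co s = β
        · exact Or.inr ⟨lv s, by rw [← e, sp_co_lv]⟩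
        · exact Or.inl (by rwa [mem_ofPred_eq, ← hue s e])
      · obtain ⟨L', hL'⟩ := hp.big α (m + n)
        exact ⟨L', fun j hj x => by have := hL' j hj x; have := huc (sp α j) x; omega⟩
    have hnode := (hfix L x₀ hx₀).node (j := L) fun s _ => hr.lt hx₀ s
    have hw₀ := (hnode.mono (hI L)).glue hu (sp β L)
    have hbad : ∀ y ∈ bd (glue (sp β L) (fixc (Bl β L) x₀ (fixc (E L) x₀ r)) u),
        y ∈ bd r ∧ ∀ j ≥ L, ¬ gd j y := fun y hy => by
      obtain ⟨a, b⟩ := ((hfix L x₀ hx₀).mem_node fun s _ => hr.lt hx₀ s).1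
        (hnode.mem_bd (mem_bd_glue.1 hy).1 (hw₀.lt hy))
      obtain ⟨c, d⟩ := (hmem L x₀ hx₀ y).1 a
      refine ⟨c, fun j hj => ?_⟩
      induction j, hj using Nat.le_induction with
      | base => rwa [gd_congr L y x₀ fun s hs => hs.elim (d s) (b s)]
      | succ j hj ih =>
        have h1 := step j y c ih
        have h2 := (mem_bd_glue.1 hy).2 _ (sp_mono β hj)
        have h3 := Finset.card_filter_add_card_filter_not (s := p (sp β j) y)
          fun v => gd (j + 1) (update y (sp β j) v)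
        simp only [u] at h2
        rw [if_pos ⟨rfl, hj, by simp only [B, lv_sp]; omega⟩] at h2
        simpa [B] using (Finset.mem_filter.1 h2).2
    obtain ⟨w, w1, w2, w3⟩ := hd _ hw₀
    obtain ⟨L', hL'⟩ := w1.big β n
    obtain ⟨y, hy⟩ := w1.nonempty
    obtain ⟨D, d1, d2, d3, d4⟩ := w1.exists_cl (isLowerSet_Iio (sp β (max L L')))
      ((hE _).1.union (finite_Bl β _)) (hEB _)
    have hw' := w1.fixc d1 (d3.trans (hI _)) fun s _ => w1.lt hy s
    have hm : ∀ z, z ∈ bd (fixc D y w) ↔ z ∈ bd w ∧ ∀ s ∈ D, z s = y s :=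
      fun z => d4.mem_bd fun s _ => hy s
    have hres := hw'.res (sp β 0)
    have hyr := hbad y (w2 hy)
    have hsub : bd (glue (sp β 0) (fixc D y w) (top θ)) ⊆ bd (fixc (E (max L L')) y r) :=
      fun z hz => (hfix _ y hyr.1).mem_bd (hw'.part (hfix _ y hyr.1) (fun t ht =>
        (hmem _ y hyr.1 t).2 ⟨(hbad t (w2 ((hm t).1 ht).1)).1, fun s hs =>
          ((hm t).1 ht).2 s (d2 (Or.inl hs))⟩) (isLowerSet_Iio _) (mem_bd_glue.1 hz).1)
        (hres.lt hz)
    have hbody : bd (glue (sp β (max L L')) (fixc (Bl β (max L L')) y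
        (glue (sp β 0) (fixc D y w) (top θ))) w) ⊆ bd w := fun z hz => by
      refine ((hm z).1 fun s => ?_).1
      rcases lt_or_ge s (sp β (max L L')) with h | h
      · have h1 := (mem_bd_glue.1 hz).1 s h
        by_cases h2 : s ∈ Bl β (max L L')
        · rw [fixc_of_mem h2] at h1
          rwa [fixc_of_mem (d2 (Or.inr h2))]
        · rwa [fixc_of_notMem h2, glue_of_lt ((lt_or_Bl h).resolve_right h2)] at h1
      · rw [fixc_of_notMem fun h' => not_lt.2 h (d3 h')]
        exact (mem_bd_glue.1 hz).2 s h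
    refine (hE _).2.2.2 y hyr.1 (hyr.2 _ (le_max_left L L')) _ hres
      (fun z hz => ((hmem _ y hyr.1 z).1 (hsub hz)).1)
      (fun z hz => ((hmem _ y hyr.1 z).1 (hsub hz)).2)
      ⟨w, w1, fun i hi => hL' i (le_of_max_le_right hi), fun z hz s hs => hup s z
        ((mem_bd_glue.1 (w2 (hbody hz))).2 s ((sp_mono β (le_max_left _ _)).trans hs)),
        (Loc.of ho w3).mono hbody⟩
  have hc := ((hr.mono (hI 0)).glue hp (sp β 0)).res (sp β L)
  refine (gd_of_loc (hI L) hc ⟨_, (hE L).1.union (finite_Bl β L), hEB L,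
    fun z hz q q1 q2 q3 => ?_⟩).of_part fun x hx s hs => by rw [glue_of_lt hs]; exact hx s hs
  have key : ∀ y ∈ bd (glue (sp β L) (glue (sp β 0) r p) (top θ)), y ∈ bd r := fun y hy =>
    hr.mem_bd (fun s hs => by
      have := (mem_bd_glue.1 hy).1 s (hs.trans_le (sp_mono β (Nat.zero_le _)))
      rwa [glue_of_lt hs] at this) (hc.lt hy)
  have hz' := key z hz
  exact Gd.mono (all z hz') ((hfix L z hz').node fun s _ => hr.lt hz' s) q1 fun y hy =>
    ((hfix L z hz').mem_node fun s _ => hr.lt hz' s).2 ⟨(hmem L z hz' y).2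
      ⟨key y (q2 hy), fun s hs => q3 y hy s (Or.inl hs)⟩, fun s hs => q3 y hy s (Or.inr hs)⟩

theorem pure_decision (hn : 0 < n) (L : ℕ) (F : Finset I) :
    ∀ (T : Set (W I)) (𝒟 : Cr I → Prop) (p : Cr I), IsLowerSet T → (∀ β ∈ F, ∀ i, sp β i ∈ T) →
      (∀ β ∈ F, CR θ (Iio (sp β 0))) → Opn θ T 𝒟 → Dns θ T 𝒟 → Cnd θ T p →
      (∀ α ∈ F, ∀ j ≥ L, ∀ x, n ≤ (p (sp α j) x).card) →
      ∃ q, Cnd θ T q ∧ Ext F (fun _ => L) n q p ∧ Loc θ T q 𝒟 := by
  classical
  induction F using Finset.induction_on_max with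
  | empty =>
    intro T 𝒟 p _ _ _ ho hd hp _
    obtain ⟨q, a, b, c⟩ := hd p hp
    exact ⟨q, a, ⟨b, by simp, by simp⟩, Loc.of ho c⟩
  | insert β F hF ih =>
    intro T 𝒟 p hT h1 h2 ho hd hp hL
    have hβ := h1 β (Finset.mem_insert_self _ _)
    have hI : ∀ i, Iio (sp β i) ⊆ T := fun i s hs => hT (le_of_lt hs) (hβ i)
    have hlt : ∀ α ∈ F, ∀ i, sp α i < sp β 0 := fun α hα i => sp_lt_sp.2 (Or.inl (hF α hα))
    have h0L := sp_mono β (Nat.zero_le L)
    obtain ⟨q, q1, q2, q3⟩ := ih (Iio (sp β 0))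
      (fun r => Gd θ T β p n 𝒟 L (glue (sp β 0) r p) ∧ Cnd θ (Iio (sp β 0)) r) _
      (isLowerSet_Iio _) hlt (fun α hα => h2 α (Finset.mem_insert_of_mem hα))
      (fun r q ⟨a, b⟩ c d => ⟨a.mono ((b.mono (hI 0)).glue hp _) ((c.mono (hI 0)).glue hp _)
        fun x hx => mem_bd_glue.2 ⟨c.part b d (isLowerSet_Iio _) (mem_bd_glue.1 hx).1,
          (mem_bd_glue.1 hx).2⟩, c⟩)
      (fun r hr => (exists_gd (h2 β (Finset.mem_insert_self _ _)) hT hβ hn
        ho hd hp (hL β (Finset.mem_insert_self _ _)) r hr).imp fun q ⟨a, b, c⟩ => ⟨a, b, c, a⟩)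
      (hp.res (sp β 0)) fun α hα j hj x => by
        rw [glue_of_lt (hlt α hα j)]
        exact hL α (Finset.mem_insert_of_mem hα) j hj x
    have hc := ((q1.mono (hI 0)).glue hp (sp β 0)).res (sp β L)
    obtain ⟨E, e1, e2, e3, e4⟩ := q3.closed q1 (isLowerSet_Iio _)
    have key : ∀ y : Pt I, (∀ s < sp β L, y s ∈ glue (sp β L) (glue (sp β 0) q p) (top θ) s y) →
        (∀ s < sp β 0, y s ∈ q s y) ∧ ∀ s, sp β 0 ≤ s → s < sp β L → y s ∈ p s y := fun y hy =>
      ⟨fun s hs => by
        have := hy s (hs.trans_le h0L)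
        rwa [glue_of_lt (hs.trans_le h0L), glue_of_lt hs] at this, fun s hs hs' => by
        have := hy s hs'
        rwa [glue_of_lt hs', glue_of_le hs] at this⟩
    obtain ⟨u, u1, u2, u3, u4⟩ : Gd θ T β p n 𝒟 L (glue (sp β L) (glue (sp β 0) q p) (top θ)) := by
      refine gd_of_loc (hI L) hc ⟨E, e1, e2.trans (Iio_subset_Iio h0L), fun z hz w w1 w2 w3 => ?_⟩
      have hz' := q1.mem_bd (key z fun s _ => hz s).1 (hc.lt hz)
      obtain ⟨a, b⟩ := e4 z hz'
      refine a.of_part fun x hx => ?_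
      obtain ⟨y, y1, y2⟩ := w1.exists_ext (isLowerSet_Iio _) hx
      have y3 := key y fun s _ => w2 y1 s
      have y4 := (e3.mem_bd fun s _ => hz' s).2 ⟨q1.mem_bd y3.1 (w1.lt y1), w3 y y1⟩
      intro s hs
      rw [← y2 s hs, ((b.mono (hI 0)).glue hp _).causal (y := y)
        fun t ht => (y2 t (ht.trans hs)).symm]
      rcases lt_or_ge s (sp β 0) with h | h
      · rw [glue_of_lt h]; exact y4 s
      · rw [glue_of_le h]; exact y3.2 s h hs
    refine ⟨_, (hc.mono (hI L)).glue u1 (sp β L), ⟨fun x hx s => ?_, fun α hα j hj => ?_,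
      fun α hα j hj x => ?_⟩, u4⟩
    · have h3 := key x (mem_bd_glue.1 hx).1
      rcases lt_or_ge s (sp β 0) with h | h
      · have := q1.part (hp.res _) q2.le (isLowerSet_Iio _) h3.1 s h
        rwa [glue_of_lt h] at this
      · rcases lt_or_ge s (sp β L) with h' | h'
        exacts [h3.2 s h h', u3 x hx s h']
    · rcases Finset.mem_insert.1 (Finset.mem_coe.1 hα) with rfl | hα
      · rw [glue_of_lt (sp_strictMono _ hj), glue_of_lt (sp_strictMono _ hj),
          glue_of_le (sp_mono _ (Nat.zero_le _))]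
      · have := hlt α hα j
        rw [glue_of_lt (this.trans_le h0L), glue_of_lt (this.trans_le h0L), glue_of_lt this,
          q2.frz α hα j hj, glue_of_lt this]
    · rcases Finset.mem_insert.1 (Finset.mem_coe.1 hα) with rfl | hα
      · rw [glue_of_le (sp_mono _ hj)]
        exact u2 j hj x
      · have := hlt α hα j
        rw [glue_of_lt (this.trans_le h0L), glue_of_lt (this.trans_le h0L), glue_of_lt this]
        exact q2.nrm α hα j hj x

theorem co_preimage_Iio (β : I) : co ⁻¹' Iio β = Iio (sp β 0) := by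
  ext s; exact lt_sp_zero.symm

theorem cr_step {A : Set I} (hA : IsLowerSet (co ⁻¹' A : Set (W I)))
    (h : ∀ β ∈ A, CR θ (Iio (sp β 0))) : CR θ (co ⁻¹' A) := by
  intro 𝒟 ho hd p hp
  refine fusion (R := fun k q => Loc θ _ q (𝒟 k)) (fun k _ _ a _ b => a.mono b)
    (fun k p F L hp hF hFA hL => ?_) hp
  lift F to Finset I using hF
  obtain ⟨q, a, b, c⟩ := pure_decision (n := max k 1) (by simp) L F _ _ p hA
    (fun β hβ _ => hFA hβ) (fun β hβ => h β (hFA hβ)) (ho k) (hd k) hp fun α hα j hj x =>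
      max_le (hL α hα j hj x) (Finset.card_pos.2 (hp.ne _ _))
  exact ⟨q, _, a, fun _ => le_rfl, ⟨b.le, b.frz, fun α hα j hj x =>
    (le_max_left _ _).trans (b.nrm α hα j hj x)⟩, c⟩

theorem cr_Iio (β : I) : CR θ (Iio (sp β 0)) := by
  induction β using (wellFounded_lt (α := I)).induction with
  | _ β ih =>
    rw [← co_preimage_Iio]
    exact cr_step (co_preimage_Iio β ▸ isLowerSet_Iio _) ih

theorem cr_univ : CR θ (univ : Set (W I)) :=
  cr_step (A := univ) isLowerSet_univ fun β _ => cr_Iio β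

end Pool.Agent.Lib.Common.BushyIter
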