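import Mathlib
import Pool.Agent.Lib.Common.BushyIter.Pure
import Pool.Agent.Lib.Common.BushyIter.Inter

/-!
Every real read from the generic point can be confined to sets of small density.
-/

set_option autoImplicit false
set_option linter.unusedSectionVars false

namespace Pool.Agent.Lib.Common.BushyIter

open Set Function
open Pool.Agent.Lib.Common.TreeIter (W sp co lv co_sp lv_sp sp_co_lv sp_lt_sp sp_le_sp sp_inj
  lt_sp_iff lt_sp_zero exists_level sp_mono sp_strictMono Iio_sp_succ lt_sp_succ)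

variable {I : Type} [LinearOrder I] [WellFoundedLT I] {θ : W I → ℕ} {p : Cr I}

theorem Qp.mono {Y : Type} {r : ℕ} {ε ε' : ℝ} {𝓕 𝓕' : Set (Set Y)} (h : Qp r ε 𝓕) (hε : ε ≤ ε')
    (hF : 𝓕 ⊆ 𝓕') : Qp r ε' 𝓕' := fun χ =>
  let ⟨A, a, b⟩ := h χ; ⟨A, a.trans (mul_le_mul_of_nonneg_right hε (by positivity)), hF b⟩

theorem descend (hp : Cnd θ univ p) {β : I} {L n r : ℕ} {ε : ℝ} (hn : 0 < n)
    (hL : ∀ j ≥ L, ∀ x, 2 ^ 2 ^ r * n ≤ (p (sp β j) x).card) {Y : Type} (s₁ : W I) :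
    ∀ 𝓖 : Pt I → Set (Set Y), FD (Iio s₁) 𝓖 → (∀ x, IsUpperSet (𝓖 x) ∧ Qp r ε (𝓖 x)) →
      ∃ 𝓗 : Pt I → Set (Set Y), FD (Iio (sp β L)) 𝓗 ∧ (∀ x, IsUpperSet (𝓗 x) ∧ Qp r ε (𝓗 x)) ∧
        ∀ K, ∃ q, Cnd θ univ q ∧ (∀ s x, q s x ⊆ p s x) ∧ (∀ s < sp β L, q s = p s) ∧
          (∀ j ≥ L, ∀ x, n ≤ (q (sp β j) x).card) ∧ ∀ x ∈ bd q, K ∈ 𝓗 x → K ∈ 𝓖 x := by
  classical
  have hL' : ∀ j ≥ L, ∀ x, n ≤ (p (sp β j) x).card := fun j hj x =>
    (Nat.le_mul_of_pos_left n (by positivity)).trans (hL j hj x)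
  induction s₁ using (wellFounded_lt (α := W I)).induction with
  | _ s₁ ih =>
    rintro 𝓖 ⟨D, d1, d2, d3⟩ hQ
    by_cases hD : D ⊆ Iio (sp β L)
    · exact ⟨𝓖, ⟨D, d1, hD, d3⟩, hQ, fun K => ⟨p, hp, fun _ _ => subset_rfl, fun _ _ => rfl, hL',
        fun _ _ => id⟩⟩
    obtain ⟨t, t1, t2⟩ := not_subset.1 hD
    obtain ⟨s, s1, s2⟩ := Set.exists_max_image D id d1 ⟨t, t1⟩
    have hs : sp β L ≤ s := (not_lt.1 t2).trans (s2 t t1)
    have hG : FD (Iic s) 𝓖 := ⟨D, d1, s2, d3⟩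
    let m : ℕ := if co s = β then n else 1
    have hm : 0 < m := by simp only [m]; split_ifs; exacts [hn, one_pos]
    let V : Set Y → Pt I → Finset ℕ := fun K x => (p s x).filter fun v => K ∈ 𝓖 (update x s v)
    obtain ⟨𝓗, h1, h2, h3⟩ := ih s (d2 s1) (fun x => {K | m ≤ (V K x).card})
      ((hp.fd s).map₂ hG.update fun a b => {K | m ≤ (a.filter fun v => K ∈ b v).card}) fun x => by
      refine ⟨fun K K' h hK => le_trans hK (Finset.card_le_card fun v hv => ?_), fun χ => ?_⟩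
      · exact Finset.mem_filter.2 ((Finset.mem_filter.1 hv).imp_right fun h' => (hQ _).1 h h')
      choose A a1 a2 using fun v => (hQ (update x s v)).2 χ
      by_cases e : co s = β
      · obtain ⟨B, -, hB⟩ := Finset.exists_le_card_fiber_of_mul_le_card_of_maps_to
          (s := p s x) (t := Finset.univ) (f := A) (n := n) (fun _ _ => Finset.mem_univ _)
          Finset.univ_nonempty (by
            have h4 : L ≤ lv s := by
              rw [← sp_co_lv s, e, sp_le_sp] at hs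
              simpa using hs
            have := hL _ h4 x
            rw [← e, sp_co_lv] at this
            simpa using this)
        obtain ⟨v, hv⟩ := Finset.card_pos.1 (hn.trans_le hB)
        refine ⟨B, (Finset.mem_filter.1 hv).2 ▸ a1 v, ?_⟩
        simp only [mem_ofPred_eq, m, if_pos e]
        refine hB.trans (Finset.card_le_card fun v hv => ?_)
        obtain ⟨v1, v2⟩ := Finset.mem_filter.1 hv
        exact Finset.mem_filter.2 ⟨v1, v2 ▸ a2 v⟩
      · obtain ⟨v, hv⟩ := hp.ne s x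
        refine ⟨A v, a1 v, ?_⟩
        simp only [mem_ofPred_eq, m, if_neg e]
        exact Finset.card_pos.2 ⟨v, Finset.mem_filter.2 ⟨hv, a2 v⟩⟩
    refine ⟨𝓗, h1, h2, fun K => ?_⟩
    obtain ⟨q, q1, q2, q3, q4, q5⟩ := h3 K
    let w : Cr I := update p s fun x => if m ≤ (V K x).card then V K x else p s x
    have hw : ∀ t x, w t x ⊆ p t x := fun t x => by
      by_cases e : t = s
      · subst e
        simp only [w, update_self]
        split_ifs
        exacts [Finset.filter_subset _ _, subset_rfl]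
      · rw [show w t = p t from update_of_ne e _ _]
    have hw' : Cnd θ univ w := hp.modify (finite_singleton s) (subset_univ _)
      (fun t ht => update_of_ne ht _ _) (by
        rintro _ rfl
        simp only [w, update_self]
        exact (hp.fd _).map₂ hG.update fun a b =>
          if m ≤ (a.filter fun v => K ∈ b v).card then a.filter fun v => K ∈ b v else a) (by
        rintro _ rfl x
        simp only [w, update_self]
        split_ifs with h
        exacts [Finset.card_pos.1 (hm.trans_le h), hp.ne _ x])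
      fun t _ x => (hw t x).trans (hp.sub t x)
    refine ⟨_, q1.glue hw' s, fun t x => ?_, fun t ht => ?_, fun j hj x => ?_, fun x hx hK => ?_⟩
    · rcases lt_or_ge t s with h | h
      · rw [glue_of_lt h]; exact q2 t x
      · rw [glue_of_le h]; exact hw t x
    · rw [glue_of_lt (ht.trans_le hs), q3 t ht]
    · rcases lt_or_ge (sp β j) s with h | h
      · rw [glue_of_lt h]; exact q4 j hj x
      · rw [glue_of_le h]
        by_cases e : sp β j = s
        · subst e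
          simp only [w, update_self]
          split_ifs with h'
          · simpa [m] using h'
          · exact hL' j hj x
        · rw [show w _ = p _ from update_of_ne e _ _]
          exact hL' j hj x
    · obtain ⟨y, y1, y2⟩ := q1.exists_ext (isLowerSet_Iio s) (mem_bd_glue.1 hx).1
      have h4 := q5 y y1 (by rwa [h1.congr (y := x) fun t ht => y2 t (ht.trans_le hs)])
      have h5 : V K y = V K x := ((hp.fd s).map₂ hG.update
        fun a b => a.filter fun v => K ∈ b v).congr y2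
      rw [mem_ofPred_eq, h5] at h4
      have h6 := (mem_bd_glue.1 hx).2 s le_rfl
      simp only [w, update_self, if_pos h4] at h6
      simpa using (Finset.mem_filter.1 h6).2

theorem frozen (hp : Cnd θ univ p) (β : I) (j : ℕ) : ∀ (r : ℕ) {ε δ : ℝ}, 0 ≤ ε → 0 < δ →
    ∃ r', ∀ (Y : Type) (𝓖 : Pt I → Set (Set Y)), FD (Iio (sp β j)) 𝓖 →
      (∀ x, IsUpperSet (𝓖 x) ∧ Qp r ε (𝓖 x)) → ∃ 𝓗 : Pt I → Set (Set Y), FD (Iio (sp β 0)) 𝓗 ∧
        (∀ x, IsUpperSet (𝓗 x) ∧ Qp r' (ε + δ) (𝓗 x)) ∧ ∀ x ∈ bd p, 𝓗 x ⊆ 𝓖 x := by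
  induction j with
  | zero =>
    exact fun r ε δ _ hδ => ⟨r, fun Y 𝓖 a b => ⟨𝓖, a, fun x =>
      ⟨(b x).1, (b x).2.mono (by linarith) subset_rfl⟩, fun _ _ => subset_rfl⟩⟩
  | succ j ih =>
    intro r ε δ hε hδ
    obtain ⟨r₁, h1⟩ := qp_inter r (θ (sp β j)) hε (half_pos hδ)
    obtain ⟨r', h2⟩ := ih r₁ (ε := ε + δ / 2) (by positivity) (half_pos hδ)
    refine ⟨r', fun Y 𝓖 a b => ?_⟩
    rw [Iio_sp_succ] at a
    obtain ⟨𝓗, c, d, e⟩ := h2 Y (fun x => {K | ∀ v ∈ p (sp β j) x, K ∈ 𝓖 (update x (sp β j) v)})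
      ((hp.fd _).map₂ a.update fun a b => {K | ∀ v ∈ a, K ∈ b v}) fun x =>
        ⟨fun K K' h hK v hv => (b _).1 h (hK v hv), h1 Y _ _
          ((Finset.card_le_card (hp.sub _ x)).trans_eq (Finset.card_range _))
          (fun v _ => (b _).1) fun v _ => (b _).2⟩
    refine ⟨𝓗, c, fun x => by simpa [add_assoc] using d x, fun x hx K hK => ?_⟩
    simpa using e x hx hK _ (hx _)

theorem FD.exists_Iio [Nonempty I] {Y : Sort*} {f : Pt I → Y} (h : FD univ f) :
    ∃ s, FD (Iio s) f := by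
  obtain ⟨D, a, -, c⟩ := h
  have : Nonempty (W I) := ⟨sp (Classical.arbitrary I) 0⟩
  obtain ⟨s, hs⟩ := a.bddAbove
  refine ⟨sp (co s) (lv s + 1), D, a, fun t ht => lt_sp_succ.2 ?_, c⟩
  rw [sp_co_lv]
  exact hs ht

theorem thin_step (hp : Cnd θ univ p) {n : ℕ} (hn : 0 < n) (L : ℕ) (F : Finset I) :
    ∀ (r : ℕ) {ε δ : ℝ}, 0 ≤ ε → 0 < δ → ∃ ℓ : I → ℕ, (∀ α, L ≤ ℓ α) ∧ ∃ r',
      ∀ (Y : Type) (𝓖 : Pt I → Set (Set Y)), FD univ 𝓖 → (∀ x, IsUpperSet (𝓖 x) ∧ Qp r ε (𝓖 x)) →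
        Qp r' (ε + δ) {K | ∃ q, Cnd θ univ q ∧ (∀ s x, q s x ⊆ p s x) ∧ Ext F ℓ n q p ∧
          ∀ x ∈ bd q, K ∈ 𝓖 x} := by
  classical
  induction F using Finset.induction_on_max with
  | empty =>
    refine fun r ε δ _ hδ => ⟨fun _ => L, fun _ => le_rfl, r, fun Y 𝓖 ⟨D, a, b, c⟩ hQ => ?_⟩
    obtain ⟨x, hx⟩ := hp.nonempty
    obtain ⟨q, q1, q2, -, q3⟩ := hp.cyl isLowerSet_univ a b hx
    obtain ⟨w, w1, w2, w3, -⟩ := q1.normal hp q2
    exact (hQ x).2.mono (by linarith) fun K hK => ⟨w, w1, w3, ⟨w2.trans q2, by simp, by simp⟩,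
      fun y hy => c y x (q3 y (w2 hy)) ▸ hK⟩
  | insert β F hF ih =>
    intro r ε δ hε hδ
    have : Nonempty I := ⟨β⟩
    obtain ⟨L', hL'⟩ := hp.big β (2 ^ 2 ^ r * n)
    obtain ⟨r₁, h1⟩ := frozen hp β (max L L') r hε (half_pos hδ)
    obtain ⟨ℓ, h2, r', h3⟩ := ih r₁ (ε := ε + δ / 2) (by positivity) (half_pos hδ)
    have hne : ∀ α ∈ F, α ≠ β := fun α hα => (hF α hα).ne
    have hlt : ∀ α ∈ F, ∀ i, sp α i < sp β 0 := fun α hα i => sp_lt_sp.2 (Or.inl (hF α hα))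
    refine ⟨update ℓ β (max L L'), fun α => ?_, r', fun Y 𝓖 a b => ?_⟩
    · by_cases e : α = β
      · subst e; simp
      · rw [update_of_ne e]; exact h2 α
    obtain ⟨s₁, a⟩ := a.exists_Iio
    obtain ⟨𝓗, c1, c2, c3⟩ := descend hp hn (fun j hj => hL' j (le_of_max_le_right hj)) s₁ 𝓖 a b
    obtain ⟨𝓚, d1, d2, d3⟩ := h1 Y 𝓗 c1 c2
    refine (h3 Y 𝓚 (d1.mono (subset_univ _)) d2).mono (by linarith) ?_
    rintro K ⟨q, q1, q2, q3, q4⟩
    obtain ⟨w, w1, w2, w3, w4, w5⟩ := c3 K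
    have hs : ∀ s x, glue (sp β 0) q w s x ⊆ p s x := fun s x => by
      rcases lt_or_ge s (sp β 0) with h | h
      · rw [glue_of_lt h]; exact q2 s x
      · rw [glue_of_le h]; exact w2 s x
    have hb : bd (glue (sp β 0) q w) ⊆ bd p := fun x hx s => hs s x (hx s)
    refine ⟨_, q1.glue w1 (sp β 0), hs, ⟨hb, fun α hα j hj => ?_, fun α hα j hj x => ?_⟩,
      fun x hx => ?_⟩
    · rcases Finset.mem_insert.1 (Finset.mem_coe.1 hα) with rfl | hα
      · rw [update_self] at hj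
        rw [glue_of_le (sp_mono _ (Nat.zero_le _)), w3 _ (sp_strictMono _ hj)]
      · rw [update_of_ne (hne α hα)] at hj
        rw [glue_of_lt (hlt α hα j), q3.frz α hα j hj]
    · rcases Finset.mem_insert.1 (Finset.mem_coe.1 hα) with rfl | hα
      · rw [update_self] at hj
        rw [glue_of_le (sp_mono _ (Nat.zero_le _))]
        exact w4 j hj x
      · rw [update_of_ne (hne α hα)] at hj
        rw [glue_of_lt (hlt α hα j)]
        exact q3.nrm α hα j hj x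
    · obtain ⟨y, y1, y2⟩ := q1.exists_ext (isLowerSet_Iio _) (mem_bd_glue.1 hx).1
      refine w5 x (fun s => ?_) (d3 x (hb hx) (d1.congr y2 ▸ q4 y y1))
      rcases lt_or_ge s (sp β 0) with h | h
      · rw [w3 s (h.trans_le (sp_mono _ (Nat.zero_le _)))]
        exact hb hx s
      · exact (mem_bd_glue.1 hx).2 s h

theorem thin (hp : Cnd θ univ p) {ψ : Pt I → ℕ → Bool} (hψ : ∀ k, FD univ fun x => ψ x k) :
    ∃ q, Cnd θ univ q ∧ bd q ⊆ bd p ∧ ∀ k : ℕ, ∃ (M : ℕ) (A : Finset (Fin M → Bool)),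
      (A.card : ℝ) ≤ 2 / 2 ^ k * 2 ^ M ∧ ∀ x ∈ bd q, (fun i : Fin M => ψ x i) ∈ A := by
  refine fusion (A := univ) (R := fun k q => ∃ (M : ℕ) (A : Finset (Fin M → Bool)),
      (A.card : ℝ) ≤ 2 / 2 ^ k * 2 ^ M ∧ ∀ x ∈ bd q, (fun i : Fin M => ψ x i) ∈ A)
    (fun k p q ⟨M, A, a, b⟩ _ h => ⟨M, A, a, fun x hx => b x (h hx)⟩)
    (fun k p F L hp hF _ _ => ?_) hp
  lift F to Finset I using hF
  obtain ⟨ℓ, a, M, b⟩ := thin_step hp (n := max k 1) (by simp) L F k (ε := 1 / 2 ^ k)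
    (δ := 1 / 2 ^ k) (by positivity) (by positivity)
  obtain ⟨D, d1, d2, d3⟩ := FD.common (T := univ) (finite_Iio M) (f := fun k x => ψ x k)
    fun k _ => hψ k
  obtain ⟨A, c, q, q1, -, q2, q3⟩ := b (Fin M → Bool) (fun x => {K | (fun i : Fin M => ψ x i) ∈ K})
    ⟨D, d1, d2, fun x y e => by
      beta_reduce
      rw [show (fun i : Fin M => ψ x i) = fun i : Fin M => ψ y i from
        funext fun i => d3 i i.2 x y e]⟩
    (fun x => ⟨fun K K' h hK => h hK, fun χ => ⟨{χ fun i => ψ x i}, by simp, by simp⟩⟩) id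
  refine ⟨q, ℓ, q1, a, ⟨q2.le, q2.frz, fun α hα j hj x =>
    (le_max_left _ _).trans (q2.nrm α hα j hj x)⟩, M, A, ?_, q3⟩
  rwa [← add_div, one_add_one_eq_two] at c

end Pool.Agent.Lib.Common.BushyIter
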